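import Mathlib

/-!
# Extension of derivations in characteristic zero
-/

namespace Pool.Agent.MPad0563

open scoped TensorProduct

/-- extension of derivations along formally etale algebras -/
lemma exists_extend {R A B : Type} [CommRing R] [CommRing A] [CommRing B] [Algebra R A]
    [Algebra R B] [Algebra A B] [IsScalarTower R A B] [Algebra.FormallyEtale A B]
    (d : Derivation R A B) :
    ∃ d' : Derivation R B B, ∀ a, d' (algebraMap A B a) = d a := by
  let e := (KaehlerDifferential.tensorKaehlerEquivOfFormallyEtale R A B).symm
  let L : Ω[A⁄R] →ₗ[A] B := d.liftKaehlerDifferential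
  let L' : B ⊗[A] Ω[A⁄R] →ₗ[B] B := L.liftBaseChange B
  refine ⟨(L' ∘ₗ e.toLinearMap).compDer (KaehlerDifferential.D R B), ?_⟩
  intro a
  have h1 := KaehlerDifferential.tensorKaehlerEquivOfFormallyEtale_symm_D_algebraMap R A B a
  change L' (e (KaehlerDifferential.D R B (algebraMap A B a))) = d a
  change e _ = _ at h1
  rw [h1]
  simp [L', L]

open scoped IntermediateField.algebraAdjoinAdjoin in
lemma formallyEtale_of_basis {K L ι : Type} [Field K] [Field L] [Algebra K L] [CharZero K]
    {v : ι → L} (hv : IsTranscendenceBasis K v) :
    Algebra.FormallyEtale (Algebra.adjoin K (Set.range v)) L := by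
  have : Algebra.FormallyEtale (Algebra.adjoin K (Set.range v))
      (IntermediateField.adjoin K (Set.range v)) := .of_isLocalization (nonZeroDivisors _)
  have : Algebra.IsAlgebraic (IntermediateField.adjoin K (Set.range v)) L := hv.isAlgebraic_field
  have : Algebra.FormallyEtale (IntermediateField.adjoin K (Set.range v)) L :=
    Algebra.FormallyEtale.of_isSeparable _ L
  exact .comp _ (IntermediateField.adjoin K (Set.range v)) _

/-- derivations with given values on the constants and on a transcendence basis -/
lemma exists_derivation {k₀ k L ι : Type} [Field k₀] [Field k] [Field L] [CharZero k]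
    [Algebra k₀ k] [Algebra k L] [Algebra k₀ L] [IsScalarTower k₀ k L] {v : ι → L}
    (hv : IsTranscendenceBasis k v) (d₀ : Derivation k₀ k L) (f : ι → L) :
    ∃ d : Derivation k₀ L L, (∀ c, d (algebraMap k L c) = d₀ c) ∧ ∀ i, d (v i) = f i := by
  have hE := formallyEtale_of_basis hv
  let φ : k →+* TrivSqZeroExt L L :=
    { toFun := fun c => TrivSqZeroExt.inl (algebraMap k L c) + TrivSqZeroExt.inr (d₀ c)
      map_one' := by simp
      map_mul' := fun a b => by
        ext
        · simp
        · simp only [TrivSqZeroExt.snd_add, TrivSqZeroExt.snd_inl, TrivSqZeroExt.snd_inr,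
            TrivSqZeroExt.snd_mul, TrivSqZeroExt.fst_add, TrivSqZeroExt.fst_inl,
            TrivSqZeroExt.fst_inr, zero_add, add_zero, Derivation.leibniz, smul_eq_mul,
            MulOpposite.smul_eq_mul_unop, MulOpposite.unop_op, Algebra.smul_def]
          ring
      map_zero' := by simp
      map_add' := fun a b => by
        ext
        · simp
        · simp }
  let Φ : MvPolynomial ι k →+* TrivSqZeroExt L L :=
    MvPolynomial.eval₂Hom φ (fun i => TrivSqZeroExt.inl (v i) + TrivSqZeroExt.inr (f i))
  have hfst : ∀ p, (Φ p).fst = MvPolynomial.aeval v p := by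
    intro p
    induction p using MvPolynomial.induction_on with
    | C a => simp [Φ, φ]
    | add p q hp hq => simp [hp, hq]
    | mul_X p i hp =>
      rw [map_mul, TrivSqZeroExt.fst_mul, hp, map_mul, MvPolynomial.aeval_X]
      congr 1
      simp [Φ]
  let e : MvPolynomial ι k ≃ₐ[k] Algebra.adjoin k (Set.range v) := hv.1.aevalEquiv
  have he : ∀ a : Algebra.adjoin k (Set.range v), MvPolynomial.aeval v (e.symm a) = (a : L) := by
    intro a
    obtain ⟨p, rfl⟩ := e.surjective a
    rw [e.symm_apply_apply]
    exact (hv.1.algebraMap_aevalEquiv p).symm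
  let dA : Derivation k₀ (Algebra.adjoin k (Set.range v)) L := Derivation.mk'
    { toFun := fun a => (Φ (e.symm a)).snd
      map_add' := fun a b => by simp
      map_smul' := fun r a => by
        have h1 : e.symm (r • a) = MvPolynomial.C (algebraMap k₀ k r) * e.symm a := by
          apply e.injective
          rw [map_mul, e.apply_symm_apply, e.apply_symm_apply]
          have h2 : e (MvPolynomial.C (algebraMap k₀ k r)) =
              algebraMap k _ (algebraMap k₀ k r) := by
            rw [← MvPolynomial.algebraMap_eq]
            exact e.commutes _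
          rw [h2]
          apply Subtype.ext
          simp [Algebra.smul_def, ← IsScalarTower.algebraMap_apply]
        rw [h1, map_mul, TrivSqZeroExt.snd_mul]
        simp [Φ, φ, Algebra.smul_def, ← IsScalarTower.algebraMap_apply] }
    (fun a b => by
      simp only [LinearMap.coe_mk, AddHom.coe_mk, map_mul, TrivSqZeroExt.snd_mul, hfst, he]
      simp [Algebra.smul_def]
      ring)
  obtain ⟨d, hd⟩ := exists_extend dA
  refine ⟨d, ?_, ?_⟩
  · intro c
    have h1 := hd (algebraMap k _ c)
    rw [← IsScalarTower.algebraMap_apply] at h1
    rw [h1]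
    change (Φ (e.symm (algebraMap k _ c))).snd = _
    rw [e.symm.commutes]
    simp [Φ, φ, MvPolynomial.algebraMap_eq]
  · intro i
    have h1 := hd ⟨v i, Algebra.subset_adjoin ⟨i, rfl⟩⟩
    change d (v i) = _ at h1
    rw [h1]
    change (Φ (e.symm ⟨v i, _⟩)).snd = _
    have h2 : e.symm ⟨v i, Algebra.subset_adjoin ⟨i, rfl⟩⟩ = MvPolynomial.X i := by
      apply e.injective
      rw [e.apply_symm_apply]
      apply Subtype.ext
      have := hv.1.algebraMap_aevalEquiv (MvPolynomial.X i)
      simp only [MvPolynomial.aeval_X] at this
      exact this.symm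
    rw [h2]
    simp [Φ]

/-- a derivation which vanishes on a subfield vanishes on the elements algebraic over it -/
lemma derivation_eq_zero {K L : Type} [Field K] [Field L] [CharZero K] [Algebra K L]
    [Algebra.IsAlgebraic K L] (d : Derivation K L L) : d = 0 := by
  have : Algebra.FormallyUnramified K L := Algebra.FormallyUnramified.of_isSeparable K L
  have h1 : Subsingleton (Ω[L⁄K]) := inferInstance
  ext z
  have h2 : KaehlerDifferential.D K L z = 0 := Subsingleton.elim _ _
  have h3 := d.liftKaehlerDifferential_comp_D z
  rw [h2, map_zero] at h3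
  rw [← h3]
  rfl

end Pool.Agent.MPad0563
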