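import Mathlib
import Pool.Agent.Work.MP_ad0563_ag.Interface

/-!
# Block E1: extension of embeddings of countable fields into `ℂ`
-/

namespace Pool.Agent.MPad0563

open Cardinal

/-- extension of embeddings; the elements of a transcendence basis avoid a given number -/
theorem exists_embedding {M N : Type} [Field M] [Field N] [Countable N] [Algebra M N]
    [Algebra M ℂ] {s : Set N} (hs : IsTranscendenceBasis M ((↑) : s → N)) (c : ℂ) :
    ∃ k : N →ₐ[M] ℂ, ∀ z ∈ s, k z ≠ c := by
  have hM : Countable M := (algebraMap M N).injective.countable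
  obtain ⟨κ, hκ⟩ := exists_isTranscendenceBasis M ℂ
  have hcard : #ℂ = #κ := by
    apply IsAlgClosed.cardinal_eq_cardinal_transcendence_basis_of_aleph0_lt' _ hκ
    · exact Cardinal.mk_le_aleph0
    · rw [Cardinal.mk_complex]
      exact Cardinal.aleph0_lt_continuum
  have hκinf : κ.Infinite := by
    rw [← Set.infinite_coe_iff, ← Cardinal.aleph0_le_mk_iff, ← hcard, Cardinal.mk_complex]
    exact Cardinal.aleph0_le_continuum
  have hinf : (κ \ {c}).Infinite := hκinf.diff (Set.finite_singleton c)
  have hle : #s ≤ #(κ \ {c} : Set ℂ) := by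
    refine Cardinal.mk_le_aleph0.trans ?_
    rw [Cardinal.aleph0_le_mk_iff, Set.infinite_coe_iff]
    exact hinf
  obtain ⟨e⟩ := hle
  let e' : s → κ := fun x => ⟨(e x : ℂ), (e x).2.1⟩
  have he' : Function.Injective e' := by
    intro x y h
    apply e.injective
    apply Subtype.ext
    exact congrArg (fun q : κ => (q : ℂ)) h
  have hind : AlgebraicIndependent M (fun x : s => ((e x : ℂ))) := hκ.1.comp e' he'
  let A := Algebra.adjoin M (Set.range ((↑) : s → N))
  let ε : A →ₐ[M] ℂ := (MvPolynomial.aeval (fun x : s => ((e x : ℂ)))).comp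
    hs.1.aevalEquiv.symm.toAlgHom
  have hε : Function.Injective ε := by
    have h3 : Function.Injective
        (MvPolynomial.aeval (fun x : s => ((e x : ℂ))) : MvPolynomial s M → ℂ) := hind
    exact h3.comp hs.1.aevalEquiv.symm.injective
  let _ : Algebra A ℂ := ε.toRingHom.toAlgebra
  have hf : FaithfulSMul A ℂ := (faithfulSMul_iff_algebraMap_injective A ℂ).mpr hε
  have halg : Algebra.IsAlgebraic A N := hs.isAlgebraic
  let L : N →ₐ[A] ℂ := IsAlgClosed.lift
  refine ⟨{ L.toRingHom with commutes' := ?_ }, ?_⟩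
  · intro m
    change L (algebraMap M N m) = _
    rw [IsScalarTower.algebraMap_apply M A N, L.commutes]
    change ε (algebraMap M A m) = _
    rw [ε.commutes]
  · intro z hz
    change L z ≠ c
    have h1 : z = algebraMap A N ⟨z, Algebra.subset_adjoin ⟨⟨z, hz⟩, rfl⟩⟩ := rfl
    rw [h1, L.commutes]
    change ε _ ≠ c
    have h2 : hs.1.aevalEquiv.symm ⟨z, Algebra.subset_adjoin ⟨⟨z, hz⟩, rfl⟩⟩ =
        MvPolynomial.X ⟨z, hz⟩ := by
      apply hs.1.aevalEquiv.injective
      rw [AlgEquiv.apply_symm_apply]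
      apply Subtype.ext
      have := hs.1.algebraMap_aevalEquiv (MvPolynomial.X ⟨z, hz⟩)
      simp only [MvPolynomial.aeval_X] at this
      exact this.symm
    change MvPolynomial.aeval (fun x : s => ((e x : ℂ))) (hs.1.aevalEquiv.symm _) ≠ c
    rw [h2, MvPolynomial.aeval_X]
    exact (e ⟨z, hz⟩).2.2

theorem exists_embedding_ne {M N : Type} [Field M] [Field N] [Countable N] [Algebra M N]
    [Algebra M ℂ] {z : N} (hz : Transcendental M z) (c : ℂ) : ∃ k : N →ₐ[M] ℂ, k z ≠ c := by
  have h1 : AlgebraicIndepOn M id {z} := by simpa using hz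
  obtain ⟨s, hs, hb⟩ := exists_isTranscendenceBasis_superset h1
  obtain ⟨k, hk⟩ := exists_embedding hb c
  exact ⟨k, hk z (hs (by simp))⟩

theorem stmt_E1 : Stmt_E1 := by
  intro M N _ _ _ i j
  let _ : Algebra M N := i.toAlgebra
  let _ : Algebra M ℂ := j.toAlgebra
  obtain ⟨s, hs⟩ := exists_isTranscendenceBasis M N
  obtain ⟨k, -⟩ := exists_embedding hs 0
  refine ⟨k.toRingHom, ?_⟩
  ext m
  exact k.commutes m

end Pool.Agent.MPad0563
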