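import Mathlib

/-!
# Valuation rings as localisations of noetherian rings
-/

namespace Pool.Agent.MPad0563

section

variable {k F Γ : Type} [Field k] [Field F] [Algebra k F] [LinearOrderedCommGroupWithZero Γ]

/-- the elements which are locally divisible by `b` -/
def locIdeal (v : Valuation F Γ) (R : Subalgebra k F) (b : R) : Ideal R where
  carrier := {r | ∃ s : R, v (s : F) = 1 ∧ ∃ r' : R, s * r = b * r'}
  zero_mem' := ⟨1, by simp, 0, by simp⟩
  add_mem' := by
    rintro x y ⟨s, hs, r, hr⟩ ⟨s', hs', r', hr'⟩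
    refine ⟨s * s', by simp [hs, hs'], s' * r + s * r', ?_⟩
    calc s * s' * (x + y) = s' * (s * x) + s * (s' * y) := by ring
      _ = s' * (b * r) + s * (b * r') := by rw [hr, hr']
      _ = _ := by ring
  smul_mem' := by
    rintro c x ⟨s, hs, r, hr⟩
    refine ⟨s, hs, c * r, ?_⟩
    calc s * (c • x) = c * (s * x) := by rw [smul_eq_mul]; ring
      _ = c * (b * r) := by rw [hr]
      _ = _ := by ring

lemma val_loc (v : Valuation F Γ) (R : Subalgebra k F) [IsNoetherianRing R]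
    (hfrac : ∀ z : F, ∃ a ∈ R, ∃ b ∈ R, b ≠ 0 ∧ z = a / b)
    (hR : ∀ r ∈ R, v r ≤ 1) (π : F) (hπR : π ∈ R) (hπ0 : π ≠ 0) (hπ : v π < 1)
    (h : ∀ r ∈ R, v r < 1 → ∃ s ∈ R, v s = 1 ∧ ∃ r₁ ∈ R, s * r = π * r₁) :
    ∀ u, v u ≤ 1 → ∃ a ∈ R, ∃ s ∈ R, v s = 1 ∧ u = a / s := by
  intro u hu
  set S : Set (Ideal R) := {I | ∃ b : R, b ≠ 0 ∧ (b : F) * u ∈ R ∧ I = locIdeal v R b} with hS
  have hne : S.Nonempty := by
    obtain ⟨a, ha, b, hb, hb0, hz⟩ := hfrac u
    refine ⟨_, ⟨b, hb⟩, ?_, ?_, rfl⟩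
    · intro h0
      exact hb0 (congrArg Subtype.val h0)
    · change b * u ∈ R
      rw [hz, mul_div_cancel₀ _ hb0]
      exact ha
  obtain ⟨I, ⟨b, hb0, hbu, hI⟩, hmax⟩ := set_has_maximal_iff_noetherian.mpr ‹_› S hne
  have hb0' : (b : F) ≠ 0 := by
    intro h0
    exact hb0 (Subtype.ext h0)
  have hbv := hR b b.2
  rcases hbv.lt_or_eq with hlt | heq
  · exfalso
    have hav : v ((b : F) * u) < 1 := by
      rw [map_mul]
      calc v (b : F) * v u ≤ v (b : F) * 1 := by gcongr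
        _ < 1 := by rw [mul_one]; exact hlt
    obtain ⟨s₁, hs₁, hv₁, b₁, hb₁, e₁⟩ := h b b.2 hlt
    obtain ⟨s₂, hs₂, hv₂, a₁, ha₁, e₂⟩ := h _ hbu hav
    have hs₁0 : s₁ ≠ 0 := by
      rintro rfl
      simp at hv₁
    have hs₂0 : s₂ ≠ 0 := by
      rintro rfl
      simp at hv₂
    have hb₁0 : b₁ ≠ 0 := by
      rintro rfl
      rw [mul_zero] at e₁
      exact mul_ne_zero hs₁0 hb0' e₁
    let b' : R := ⟨b₁ * s₂, R.mul_mem hb₁ hs₂⟩
    have key : (b' : F) * u = s₁ * a₁ := by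
      apply mul_left_cancel₀ hπ0
      calc π * (b₁ * s₂ * u) = s₂ * u * (π * b₁) := by ring
        _ = s₂ * u * (s₁ * b) := by rw [e₁]
        _ = s₁ * (s₂ * (b * u)) := by ring
        _ = s₁ * (π * a₁) := by rw [e₂]
        _ = π * (s₁ * a₁) := by ring
    have hb'0 : b' ≠ 0 := by
      intro h0
      exact mul_ne_zero hb₁0 hs₂0 (congrArg Subtype.val h0)
    apply hmax (locIdeal v R b') ⟨b', hb'0, by rw [key]; exact R.mul_mem hs₁ ha₁, rfl⟩
    rw [hI]
    refine lt_of_le_of_ne ?_ ?_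
    · rintro r ⟨s, hs, r', hr'⟩
      refine ⟨⟨s₁ * s₂ * s, R.mul_mem (R.mul_mem hs₁ hs₂) s.2⟩, by simp [hv₁, hv₂, hs],
        ⟨π * r', R.mul_mem hπR r'.2⟩, ?_⟩
      apply Subtype.ext
      change s₁ * s₂ * s * r = b₁ * s₂ * (π * r')
      have hr'' : (s : F) * r = b * r' := congrArg Subtype.val hr'
      calc s₁ * s₂ * s * r = s₁ * s₂ * (s * r) := by ring
        _ = (s₁ * b) * s₂ * r' := by rw [hr'']; ring
        _ = _ := by rw [e₁]; ring
    · intro heq
      have h1 : b' ∈ locIdeal v R b' := ⟨1, by simp, 1, by ring⟩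
      rw [← heq] at h1
      obtain ⟨s, hs, r', hr'⟩ := h1
      have hr'' : (s : F) * (b₁ * s₂) = b * r' := congrArg Subtype.val hr'
      have h2 : s * s₁ * s₂ = π * r' := by
        apply mul_right_cancel₀ hb0'
        calc (s : F) * s₁ * s₂ * b = s * s₂ * (s₁ * b) := by ring
          _ = s * s₂ * (π * b₁) := by rw [e₁]
          _ = π * (s * (b₁ * s₂)) := by ring
          _ = π * (b * r') := by rw [hr'']
          _ = π * r' * b := by ring
      have h3 := congrArg v h2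
      simp only [map_mul, hs, hv₁, hv₂, mul_one] at h3
      have h4 : v π * v (r' : F) < 1 := by
        calc v π * v (r' : F) ≤ v π * 1 := by
              gcongr
              exact hR _ r'.2
          _ < 1 := by rw [mul_one]; exact hπ
      exact h4.ne h3.symm
  · exact ⟨b * u, hbu, b, b.2, heq, by field_simp⟩

end

end Pool.Agent.MPad0563
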