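import Mathlib
import Pool.Agent.Work.MP_ad0563_ag_h67.Loc

/-!
# The bracket of two derivations
-/

namespace Pool.Agent.MPad0563

section

variable {k₀ k F Γ : Type} [Field k₀] [Field k] [Field F] [Algebra k F]
  [Algebra k₀ F] [LinearOrderedCommGroupWithZero Γ]

/-- the bracket -/
def br (Θ D : Derivation k₀ F F) (u w : F) : F := Θ u * D w - Θ w * D u

lemma br_antisymm (Θ D : Derivation k₀ F F) (u w : F) : br Θ D u w = - br Θ D w u := by
  unfold br; ring

lemma br_self (Θ D : Derivation k₀ F F) (u : F) : br Θ D u u = 0 := by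
  unfold br; ring

lemma br_add_left (Θ D : Derivation k₀ F F) (u u' w : F) :
    br Θ D (u + u') w = br Θ D u w + br Θ D u' w := by
  unfold br; rw [map_add, map_add]; ring

lemma br_mul_left (Θ D : Derivation k₀ F F) (u u' w : F) :
    br Θ D (u * u') w = u * br Θ D u' w + u' * br Θ D u w := by
  unfold br
  rw [Derivation.leibniz, Derivation.leibniz]
  simp only [smul_eq_mul]
  ring

lemma br_div_left (Θ D : Derivation k₀ F F) (a s w : F) (hs : s ≠ 0) :
    br Θ D (a / s) w = (s * br Θ D a w - a * br Θ D s w) / s ^ 2 := by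
  unfold br
  rw [Derivation.leibniz_div, Derivation.leibniz_div]
  simp only [smul_eq_mul]
  field_simp
  ring

lemma br_closed_adjoin (Θ D : Derivation k₀ F F) {S : Set F}
    (h0 : ∀ c c' : k, br Θ D (algebraMap k F c) (algebraMap k F c') ∈ Algebra.adjoin k S)
    (h1 : ∀ c : k, ∀ s ∈ S, br Θ D (algebraMap k F c) s ∈ Algebra.adjoin k S)
    (h2 : ∀ s ∈ S, ∀ s' ∈ S, br Θ D s s' ∈ Algebra.adjoin k S) :
    ∀ u ∈ Algebra.adjoin k S, ∀ w ∈ Algebra.adjoin k S, br Θ D u w ∈ Algebra.adjoin k S := by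
  have key : ∀ w : F, (∀ c : k, br Θ D (algebraMap k F c) w ∈ Algebra.adjoin k S) →
      (∀ s ∈ S, br Θ D s w ∈ Algebra.adjoin k S) →
      ∀ u ∈ Algebra.adjoin k S, br Θ D u w ∈ Algebra.adjoin k S := by
    intro w hc hs u hu
    induction hu using Algebra.adjoin_induction with
    | mem x hx => exact hs x hx
    | algebraMap c => exact hc c
    | add x y _ _ hx hy => rw [br_add_left]; exact add_mem hx hy
    | mul x y hx' hy' hx hy =>
      rw [br_mul_left]
      exact add_mem (mul_mem hx' hy) (mul_mem hy' hx)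
  intro u hu w hw
  apply key w _ _ u hu
  · intro c
    rw [br_antisymm]
    apply neg_mem
    exact key _ (fun c' => h0 c' c) (fun s hs => by
      rw [br_antisymm]
      exact neg_mem (h1 c s hs)) w hw
  · intro s hs
    rw [br_antisymm]
    apply neg_mem
    exact key _ (fun c => h1 c s hs) (fun s' hs' => h2 s' hs' s hs) w hw

lemma val_sub_le_one {v : Valuation F Γ} {a b : F} (ha : v a ≤ 1) (hb : v b ≤ 1) :
    v (a - b) ≤ 1 := (v.map_sub a b).trans (max_le ha hb)

lemma val_add_le_one {v : Valuation F Γ} {a b : F} (ha : v a ≤ 1) (hb : v b ≤ 1) :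
    v (a + b) ≤ 1 := (v.map_add a b).trans (max_le ha hb)

lemma val_mul_le_one {v : Valuation F Γ} {a b : F} (ha : v a ≤ 1) (hb : v b ≤ 1) :
    v (a * b) ≤ 1 := by
  rw [map_mul]
  exact mul_le_one' ha hb

lemma val_br_div (Θ D : Derivation k₀ F F) {v : Valuation F Γ} {a s w : F} (ha : v a ≤ 1)
    (hs : v s = 1) (h1 : v (br Θ D a w) ≤ 1) (h2 : v (br Θ D s w) ≤ 1) :
    v (br Θ D (a / s) w) ≤ 1 := by
  have hs0 : s ≠ 0 := by
    rintro rfl
    simp at hs
  rw [br_div_left Θ D a s w hs0, map_div₀, map_pow, hs, one_pow, div_one]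
  exact val_sub_le_one (val_mul_le_one hs.le h1) (val_mul_le_one ha h2)

lemma br_closed_val (Θ D : Derivation k₀ F F) (v : Valuation F Γ) (R : Subalgebra k F)
    (hR : ∀ r ∈ R, v r ≤ 1) (hbr : ∀ u ∈ R, ∀ w ∈ R, br Θ D u w ∈ R)
    (hloc : ∀ u, v u ≤ 1 → ∃ a ∈ R, ∃ s ∈ R, v s = 1 ∧ u = a / s) :
    ∀ u w, v u ≤ 1 → v w ≤ 1 → v (br Θ D u w) ≤ 1 := by
  have h1 : ∀ r ∈ R, ∀ w, v w ≤ 1 → v (br Θ D r w) ≤ 1 := by
    intro r hr w hw
    obtain ⟨a, ha, s, hs, hv, rfl⟩ := hloc w hw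
    rw [br_antisymm, Valuation.map_neg]
    exact val_br_div Θ D (hR a ha) hv (hR _ (hbr _ ha _ hr)) (hR _ (hbr _ hs _ hr))
  intro u w hu hw
  obtain ⟨a, ha, s, hs, hv, rfl⟩ := hloc u hu
  exact val_br_div Θ D (hR a ha) hv (h1 a ha w hw) (h1 s hs w hw)

end

end Pool.Agent.MPad0563
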