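import Mathlib
import Pool.Agent.Work.MP_ad0563_ag_h67.Br

/-!
# The bracket preserves the valuation rings of an elliptic function field
-/

namespace Pool.Agent.MPad0563

open Polynomial

section

variable {k₀ k F Γ : Type} [Field k₀] [Field k] [Field F] [Algebra k F]
  [Algebra k₀ F] [LinearOrderedCommGroupWithZero Γ]

lemma adjoin_two_expand (g₁ g₂ : F) (c₁ c₂ : k) :
    ∀ r ∈ Algebra.adjoin k {g₁, g₂}, ∃ c : k, ∃ α ∈ Algebra.adjoin k {g₁, g₂},
      ∃ β ∈ Algebra.adjoin k {g₁, g₂},
      r = algebraMap k F c + α * (g₁ - algebraMap k F c₁) + β * (g₂ - algebraMap k F c₂) := by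
  have hg₁ : g₁ ∈ Algebra.adjoin k ({g₁, g₂} : Set F) := Algebra.subset_adjoin (by simp)
  have hg₂ : g₂ ∈ Algebra.adjoin k ({g₁, g₂} : Set F) := Algebra.subset_adjoin (by simp)
  have hc : ∀ c, algebraMap k F c ∈ Algebra.adjoin k ({g₁, g₂} : Set F) :=
    fun c => Subalgebra.algebraMap_mem _ c
  intro r hr
  induction hr using Algebra.adjoin_induction with
  | mem x hx =>
    rcases hx with rfl | rfl
    · exact ⟨c₁, 1, one_mem _, 0, zero_mem _, by ring⟩
    · exact ⟨c₂, 0, zero_mem _, 1, one_mem _, by ring⟩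
  | algebraMap c => exact ⟨c, 0, zero_mem _, 0, zero_mem _, by ring⟩
  | add x y _ _ hx hy =>
    obtain ⟨c, α, hα, β, hβ, h⟩ := hx
    obtain ⟨c', α', hα', β', hβ', h'⟩ := hy
    refine ⟨c + c', α + α', add_mem hα hα', β + β', add_mem hβ hβ', ?_⟩
    rw [h, h', map_add]; ring
  | mul x y hx' hy' hx hy =>
    obtain ⟨c, α, hα, β, hβ, h⟩ := hx
    obtain ⟨c', α', hα', β', hβ', h'⟩ := hy
    refine ⟨c * c', α * y + algebraMap k F c * α', add_mem (mul_mem hα hy') (mul_mem (hc c) hα'),
      β * y + algebraMap k F c * β', add_mem (mul_mem hβ hy') (mul_mem (hc c) hβ'), ?_⟩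
    rw [map_mul]
    conv_lhs => rw [h]
    have : algebraMap k F c * y = algebraMap k F c * (algebraMap k F c' + α' * (g₁ - algebraMap k F c₁) + β' * (g₂ - algebraMap k F c₂)) := by rw [← h']
    linear_combination this

lemma noeth_adjoin_two (g₁ g₂ : F) : IsNoetherianRing (Algebra.adjoin k ({g₁, g₂} : Set F)) := by
  have h1 : Algebra.FiniteType k (Algebra.adjoin k ({g₁, g₂} : Set F)) :=
    .adjoin_of_finite (Set.toFinite _)
  exact Algebra.FiniteType.isNoetherianRing k _

lemma frac_adjoin {S : Set F} (hgen : IntermediateField.adjoin k S = ⊤) :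
    ∀ z : F, ∃ a ∈ Algebra.adjoin k S, ∃ b ∈ Algebra.adjoin k S, b ≠ 0 ∧ z = a / b := by
  intro z
  have hz : z ∈ IntermediateField.adjoin k S := by rw [hgen]; trivial
  rw [IntermediateField.mem_adjoin_iff_div] at hz
  obtain ⟨a, ha, b, hb, h⟩ := hz
  by_cases hb0 : b = 0
  · refine ⟨0, zero_mem _, 1, one_mem _, one_ne_zero, ?_⟩
    rw [h, hb0]; simp
  · exact ⟨a, ha, b, hb, hb0, h⟩

lemma val_const {v : Valuation F Γ} (hv : ∀ c : k, v (algebraMap k F c) ≤ 1) {c : k} (hc : c ≠ 0) :
    v (algebraMap k F c) = 1 := by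
  apply le_antisymm (hv c)
  have h1 := hv c⁻¹
  rw [map_inv₀, map_inv₀] at h1
  have h2 : v (algebraMap k F c) ≠ 0 := by
    rw [Valuation.ne_zero_iff]
    simpa using hc
  rwa [inv_le_one₀ (zero_lt_iff.mpr h2)] at h1

lemma val_adjoin {v : Valuation F Γ} (hv : ∀ c : k, v (algebraMap k F c) ≤ 1) {S : Set F}
    (hS : ∀ s ∈ S, v s ≤ 1) : ∀ r ∈ Algebra.adjoin k S, v r ≤ 1 := by
  intro r hr
  induction hr using Algebra.adjoin_induction with
  | mem x hx => exact hS x hx
  | algebraMap c => exact hv c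
  | add x y _ _ hx hy => exact val_add_le_one hx hy
  | mul x y _ _ hx hy => exact val_mul_le_one hx hy

lemma const_eq_zero {v : Valuation F Γ} (hv : ∀ c : k, v (algebraMap k F c) ≤ 1) {c : k} {a b r : F}
    (ha : v a < 1) (hb : v b < 1) (hr : v r < 1) (h : r = algebraMap k F c + a + b) : c = 0 := by
  by_contra hc
  have h1 := val_const hv hc
  have h2 : algebraMap k F c = r - a - b := by rw [h]; ring
  have h3 : v (algebraMap k F c) < 1 := by
    rw [h2]
    refine lt_of_le_of_lt (v.map_sub _ _) (max_lt ?_ hb)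
    exact lt_of_le_of_lt (v.map_sub _ _) (max_lt hr ha)
  exact h3.ne h1

lemma val_poly [IsAlgClosed k] {v : Valuation F Γ} (hv : ∀ c : k, v (algebraMap k F c) ≤ 1) {X : F}
    (h : ∀ c : k, v (X - algebraMap k F c) = 1) {p : k[X]} (hp : p ≠ 0) :
    v (aeval X p) = 1 := by
  have h1 := (IsAlgClosed.splits p).eq_prod_roots
  rw [h1, map_mul, map_mul, aeval_C, val_const hv (leadingCoeff_ne_zero.mpr hp), one_mul,
    map_multiset_prod, map_multiset_prod, Multiset.map_map, Multiset.map_map]
  apply Multiset.prod_eq_one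
  intro x hx
  rw [Multiset.mem_map] at hx
  obtain ⟨c, _, rfl⟩ := hx
  simpa using h c

lemma adjoin_poly {A B : k} {X Y : F}
    (hE : Y ^ 2 = X ^ 3 + algebraMap k F A * X + algebraMap k F B) :
    ∀ r ∈ Algebra.adjoin k {X, Y}, ∃ p q : k[X], r = aeval X p + aeval X q * Y := by
  intro r hr
  induction hr using Algebra.adjoin_induction with
  | mem x hx =>
    rcases hx with rfl | rfl
    · exact ⟨Polynomial.X, 0, by simp⟩
    · exact ⟨0, 1, by simp⟩
  | algebraMap c => exact ⟨C c, 0, by simp⟩
  | add x y _ _ hx hy =>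
    obtain ⟨p, q, h⟩ := hx
    obtain ⟨p', q', h'⟩ := hy
    exact ⟨p + p', q + q', by rw [h, h', map_add, map_add]; ring⟩
  | mul x y _ _ hx hy =>
    obtain ⟨p, q, h⟩ := hx
    obtain ⟨p', q', h'⟩ := hy
    refine ⟨p * p' + q * q' * (Polynomial.X ^ 3 + C A * Polynomial.X + C B), p * q' + q * p', ?_⟩
    rw [h, h']
    simp only [map_add, map_mul, map_pow, aeval_X, aeval_C]
    linear_combination (aeval X q * aeval X q') * hE

/-- the valuation is trivial if all `X - c` are units -/
lemma val_trivial [IsAlgClosed k] [CharZero F] {v : Valuation F Γ}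
    (hv : ∀ c : k, v (algebraMap k F c) ≤ 1) {A B : k} {X Y : F}
    (hE : Y ^ 2 = X ^ 3 + algebraMap k F A * X + algebraMap k F B)
    (hgen : IntermediateField.adjoin k {X, Y} = ⊤)
    (h : ∀ c : k, v (X - algebraMap k F c) = 1) (z : F) : v z ≤ 1 := by
  have hX1 : v X ≤ 1 := by
    have := h 0
    rw [map_zero, sub_zero] at this
    exact this.le
  have hf0 : (Polynomial.X ^ 3 + C A * Polynomial.X + C B : k[X]) ≠ 0 := by
    intro h0
    have h1 := congrArg (fun p => coeff p 3) h0
    simp [coeff_X, coeff_C] at h1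
  have hY : v Y = 1 := by
    have h1 : v (Y ^ 2) = 1 := by
      rw [hE]
      have := val_poly hv h hf0
      simpa using this
    rw [map_pow] at h1
    exact (pow_eq_one_iff_of_nonneg zero_le (by norm_num)).mp h1
  have hR : ∀ r ∈ Algebra.adjoin k {X, Y}, v r ≤ 1 := by
    apply val_adjoin hv
    rintro s (rfl | rfl)
    · exact hX1
    · exact hY.le
  obtain ⟨a, ha, b, hb, hb0, rfl⟩ := frac_adjoin hgen z
  have key : v b = 1 := by
    obtain ⟨p, q, hpq⟩ := adjoin_poly hE b hb
    set f : k[X] := Polynomial.X ^ 3 + C A * Polynomial.X + C B with hf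
    have hfX : aeval X f = Y ^ 2 := by rw [hE, hf]; simp
    by_cases hN : p ^ 2 - q ^ 2 * f = 0
    · -- `b = 2 q Y` or `b = 0`
      have h1 : (aeval X p + aeval X q * Y) * (aeval X p - aeval X q * Y) = 0 := by
        have h2 : aeval X (p ^ 2 - q ^ 2 * f) = (0 : F) := by rw [hN, map_zero]
        rw [map_sub, map_mul, map_pow, map_pow, hfX] at h2
        linear_combination h2
      rcases mul_eq_zero.mp h1 with h2 | h2
      · exact absurd (hpq.trans h2) hb0
      · have h3 : b = 2 * (aeval X q * Y) := by rw [hpq]; linear_combination h2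
        have hq0 : q ≠ 0 := by
          rintro rfl
          apply hb0
          rw [h3]; simp
        have h4 : v (2 : F) = 1 := by
          have h5 : (2 : F) = algebraMap k F 2 := (map_ofNat (algebraMap k F) 2).symm
          rw [h5]
          apply val_const hv
          intro h6
          have : (2 : F) = 0 := by rw [h5, h6, map_zero]
          exact two_ne_zero this
        rw [h3, map_mul, map_mul, h4, hY, val_poly hv h hq0]
        simp
    · have h1 : v (b * (aeval X p - aeval X q * Y)) = 1 := by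
        rw [← val_poly hv h hN]
        congr 1
        rw [map_sub, map_mul, map_pow, map_pow, hfX, hpq]
        ring
      rw [map_mul] at h1
      have h2 : v (aeval X p - aeval X q * Y) ≤ 1 := by
        have h3 : ∀ p : k[X], v (aeval X p) ≤ 1 := by
          intro p
          by_cases hp : p = 0
          · rw [hp]; simp
          · exact (val_poly hv h hp).le
        exact val_sub_le_one (h3 p) (val_mul_le_one (h3 q) hY.le)
      apply le_antisymm (hR b hb)
      calc 1 = v b * v (aeval X p - aeval X q * Y) := h1.symm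
        _ ≤ v b * 1 := by gcongr
        _ = v b := mul_one _
  rw [map_div₀, key, div_one]
  exact hR a ha

end

end Pool.Agent.MPad0563
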