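import Mathlib
import Pool.Agent.Work.MP_ad0563_ag_h67.Ell

/-!
# The bracket preserves the valuation rings of an elliptic function field, part 2
-/

namespace Pool.Agent.MPad0563

open Polynomial

section

variable {k₀ k F Γ : Type} [Field k₀] [Field k] [Field F] [Algebra k F]
  [Algebra k₀ F] [LinearOrderedCommGroupWithZero Γ] [CharZero F]

lemma two_ne_zero_k (k : Type) {F : Type} [Field k] [Field F] [Algebra k F] [CharZero F] :
    (2 : k) ≠ 0 := by
  intro h6
  have h5 : (2 : F) = algebraMap k F 2 := (map_ofNat (algebraMap k F) 2).symm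
  have : (2 : F) = 0 := by rw [h5, h6, map_zero]
  exact two_ne_zero this

lemma Y_ne_zero {A B : k} {X Y : F}
    (hE : Y ^ 2 = X ^ 3 + algebraMap k F A * X + algebraMap k F B) (hX : Transcendental k X) :
    Y ≠ 0 := by
  rintro rfl
  apply hX
  refine ⟨Polynomial.X ^ 3 + C A * Polynomial.X + C B, ?_, ?_⟩
  · intro h0
    have h1 := congrArg (fun p => coeff p 3) h0
    simp [coeff_X, coeff_C] at h1
  · simp only [map_add, map_mul, map_pow, aeval_X, aeval_C]
    rw [← hE]; norm_num

/-- the values of the derivations on `Y` -/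
lemma D_Y {A B : k} {X Y : F}
    (hE : Y ^ 2 = X ^ 3 + algebraMap k F A * X + algebraMap k F B) (hY : Y ≠ 0)
    (D : Derivation k₀ F F) : D Y =
      ((3 * X ^ 2 + algebraMap k F A) * D X + D (algebraMap k F A) * X + D (algebraMap k F B))
        / (2 * Y) := by
  have h1 := congrArg D hE
  simp only [map_add, Derivation.leibniz, Derivation.leibniz_pow, smul_eq_mul, nsmul_eq_mul] at h1
  rw [eq_div_iff (mul_ne_zero two_ne_zero hY)]
  push_cast at h1
  simp only [Nat.add_one_sub_one, pow_one] at h1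
  linear_combination h1

/-- the case of a finite point -/
lemma br_val_finite [IsAlgClosed k] {A B : k} {X Y : F} (hd : 4 * A ^ 3 + 27 * B ^ 2 ≠ 0)
    (hE : Y ^ 2 = X ^ 3 + algebraMap k F A * X + algebraMap k F B) (hX : Transcendental k X)
    (hgen : IntermediateField.adjoin k {X, Y} = ⊤) (Θ D : Derivation k₀ F F)
    (hDc : ∀ c : k, D (algebraMap k F c) = 0) (hDX : D X = Y) (θ : k → k)
    (hΘc : ∀ c : k, Θ (algebraMap k F c) = algebraMap k F (θ c)) (hΘX : Θ X = 0)
    (v : Valuation F Γ) (hv : ∀ c : k, v (algebraMap k F c) ≤ 1) (hvX : v X ≤ 1) :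
    ∀ u w, v u ≤ 1 → v w ≤ 1 → v (br Θ D u w) ≤ 1 := by
  have hY0 := Y_ne_zero hE hX
  have hcc : ∀ c : k, v (X - algebraMap k F c) ≤ 1 := fun c => val_sub_le_one hvX (hv c)
  by_cases hall : ∀ c : k, v (X - algebraMap k F c) = 1
  · intro u w _ _
    exact val_trivial hv hE hgen hall _
  push Not at hall
  obtain ⟨x₀, hx₀'⟩ := hall
  have hx₀ : v (X - algebraMap k F x₀) < 1 := lt_of_le_of_ne (hcc x₀) hx₀'
  have h2v : v (2 : F) = 1 := by
    have h5 : (2 : F) = algebraMap k F 2 := (map_ofNat (algebraMap k F) 2).symm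
    rw [h5]
    exact val_const hv (two_ne_zero_k k (F := F))
  have hYv : v Y ≤ 1 := by
    have h1 : v (Y ^ 2) ≤ 1 := by
      rw [hE]
      refine val_add_le_one (val_add_le_one ?_ (val_mul_le_one (hv _) hvX)) (hv _)
      rw [map_pow]
      exact pow_le_one₀ zero_le hvX
    rw [map_pow] at h1
    exact (pow_le_one_iff_of_nonneg zero_le (by norm_num)).mp h1
  set R := Algebra.adjoin k ({X, Y} : Set F) with hRdef
  have hXR : X ∈ R := Algebra.subset_adjoin (by simp)
  have hYR : Y ∈ R := Algebra.subset_adjoin (by simp)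
  have hcR : ∀ c, algebraMap k F c ∈ R := fun c => Subalgebra.algebraMap_mem _ c
  have hR : ∀ r ∈ R, v r ≤ 1 := by
    apply val_adjoin hv
    rintro s (rfl | rfl)
    · exact hvX
    · exact hYv
  -- the second coordinate
  obtain ⟨y₁, hy₁⟩ := IsAlgClosed.exists_pow_nat_eq (x₀ ^ 3 + A * x₀ + B) (n := 2) (by norm_num)
  have hfac : ∀ y : k, y ^ 2 = x₀ ^ 3 + A * x₀ + B →
      (Y - algebraMap k F y) * (Y + algebraMap k F y) = (X - algebraMap k F x₀) *
        (X ^ 2 + algebraMap k F x₀ * X + algebraMap k F x₀ ^ 2 + algebraMap k F A) := by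
    intro y hy
    have h1 := congrArg (algebraMap k F) hy
    simp only [map_add, map_mul, map_pow] at h1
    linear_combination hE - h1
  have hqR : X ^ 2 + algebraMap k F x₀ * X + algebraMap k F x₀ ^ 2 + algebraMap k F A ∈ R :=
    add_mem (add_mem (add_mem (pow_mem hXR 2) (mul_mem (hcR _) hXR)) (pow_mem (hcR _) 2)) (hcR _)
  set q := X ^ 2 + algebraMap k F x₀ * X + algebraMap k F x₀ ^ 2 + algebraMap k F A with hq
  have hy₀ : ∃ y₀ : k, y₀ ^ 2 = x₀ ^ 3 + A * x₀ + B ∧ v (Y - algebraMap k F y₀) < 1 := by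
    have h1 := congrArg v (hfac y₁ hy₁)
    rw [map_mul, map_mul] at h1
    have h2 : v (Y - algebraMap k F y₁) * v (Y + algebraMap k F y₁) < 1 := by
      rw [h1]
      calc v (X - algebraMap k F x₀) * v q ≤ v (X - algebraMap k F x₀) * 1 := by
            gcongr
            exact hR _ hqR
        _ < 1 := by rw [mul_one]; exact hx₀
    by_cases h3 : v (Y - algebraMap k F y₁) < 1
    · exact ⟨y₁, hy₁, h3⟩
    · refine ⟨-y₁, by rw [← hy₁]; ring, ?_⟩
      push Not at h3
      rw [map_neg, sub_neg_eq_add]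
      by_contra h4
      push Not at h4
      have : 1 ≤ v (Y - algebraMap k F y₁) * v (Y + algebraMap k F y₁) := one_le_mul h3 h4
      exact absurd h2 (not_lt.mpr this)
  obtain ⟨y₀, hy₀e, hy₀⟩ := hy₀
  have hfac := hfac y₀ hy₀e
  have hnoeth := noeth_adjoin_two (k := k) X Y
  have hexp := adjoin_two_expand X Y x₀ y₀
  have hval : ∀ {a b : F}, v a ≤ 1 → v b < 1 → v (a * b) < 1 := by
    intro a b ha hb
    rw [map_mul]
    calc v a * v b ≤ 1 * v b := by gcongr
      _ < 1 := by rw [one_mul]; exact hb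
  have hloc : ∀ u, v u ≤ 1 → ∃ a ∈ R, ∃ s ∈ R, v s = 1 ∧ u = a / s := by
    by_cases hy00 : y₀ = 0
    · -- the uniformiser `Y`
      subst hy00
      rw [map_zero] at hfac hy₀
      rw [sub_zero] at hy₀
      simp only [sub_zero, add_zero] at hfac
      have hq1 : v q = 1 := by
        apply le_antisymm (hR q hqR)
        have hne : 3 * x₀ ^ 2 + A ≠ 0 := by
          intro h0
          apply hd
          have h1 : x₀ ^ 3 + A * x₀ + B = 0 := by rw [← hy₀e]; ring
          have hA : A = - 3 * x₀ ^ 2 := by linear_combination h0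
          have hB : B = 2 * x₀ ^ 3 := by
            rw [hA] at h1; linear_combination h1
          rw [hA, hB]; ring
        have h1 : algebraMap k F (3 * x₀ ^ 2 + A) =
            q - (X + 2 * algebraMap k F x₀) * (X - algebraMap k F x₀) := by
          rw [hq, map_add, map_mul, map_pow, map_ofNat]; ring
        have h2 := val_const hv hne
        rw [h1] at h2
        have h3 : v ((X + 2 * algebraMap k F x₀) * (X - algebraMap k F x₀)) < 1 :=
          hval (val_add_le_one hvX (val_mul_le_one h2v.le (hv _))) hx₀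
        by_contra h4
        push Not at h4
        have h5 := v.map_sub q ((X + 2 * algebraMap k F x₀) * (X - algebraMap k F x₀))
        rw [h2] at h5
        exact absurd (lt_of_le_of_lt h5 (max_lt h4 h3)) (lt_irrefl _)
      refine val_loc v R (frac_adjoin hgen) hR Y hYR hY0 hy₀ ?_
      intro r hr hr1
      obtain ⟨c, α, hα, β, hβ, h⟩ := hexp r hr
      have hc0 : c = 0 := by
        apply const_eq_zero hv _ _ hr1 h
        · exact hval (hR _ hα) hx₀
        · apply hval (hR _ hβ)
          rw [map_zero, sub_zero]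
          exact hy₀
      refine ⟨q, hqR, hq1, α * Y + β * q, add_mem (mul_mem hα hYR) (mul_mem hβ hqR), ?_⟩
      rw [h, hc0, map_zero]
      linear_combination -α * hfac
    · -- the uniformiser `X - x₀`
      have hX0 : X - algebraMap k F x₀ ≠ 0 := by
        intro h0
        apply hX
        rw [sub_eq_zero] at h0
        rw [h0]
        exact isAlgebraic_algebraMap x₀
      have hs1 : v (Y + algebraMap k F y₀) = 1 := by
        apply le_antisymm (val_add_le_one hYv (hv _))
        have hne : 2 * y₀ ≠ 0 := mul_ne_zero (two_ne_zero_k k (F := F)) hy00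
        have h1 : algebraMap k F (2 * y₀) = (Y + algebraMap k F y₀) - (Y - algebraMap k F y₀) := by
          rw [map_mul, map_ofNat]; ring
        have h2 := val_const hv hne
        rw [h1] at h2
        by_contra h4
        push Not at h4
        have h5 := v.map_sub (Y + algebraMap k F y₀) (Y - algebraMap k F y₀)
        rw [h2] at h5
        exact absurd (lt_of_le_of_lt h5 (max_lt h4 hy₀)) (lt_irrefl _)
      refine val_loc v R (frac_adjoin hgen) hR (X - algebraMap k F x₀) (sub_mem hXR (hcR _)) hX0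
        hx₀ ?_
      intro r hr hr1
      obtain ⟨c, α, hα, β, hβ, h⟩ := hexp r hr
      have hc0 : c = 0 := by
        apply const_eq_zero hv _ _ hr1 h
        · exact hval (hR _ hα) hx₀
        · exact hval (hR _ hβ) hy₀
      refine ⟨Y + algebraMap k F y₀, add_mem hYR (hcR _), hs1, α * (Y + algebraMap k F y₀) + β * q,
        add_mem (mul_mem hα (add_mem hYR (hcR _))) (mul_mem hβ hqR), ?_⟩
      rw [h, hc0, map_zero]
      linear_combination β * hfac
  refine br_closed_val Θ D v R hR ?_ hloc
  -- closure of `R` under the bracket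
  have hDY : D Y = (3 * X ^ 2 + algebraMap k F A) / 2 := by
    rw [D_Y hE hY0 D, hDc, hDc, hDX]
    field_simp
    ring
  have hΘY : Θ Y = (algebraMap k F (θ A) * X + algebraMap k F (θ B)) / (2 * Y) := by
    rw [D_Y hE hY0 Θ, hΘc, hΘc, hΘX]
    congr 1
    ring
  have hhalf : (2 : F)⁻¹ ∈ R := by
    have : (2 : F)⁻¹ = algebraMap k F (2⁻¹) := by rw [map_inv₀, map_ofNat]
    rw [this]
    exact hcR _
  have hDYR : D Y ∈ R := by
    rw [hDY, div_eq_mul_inv]
    refine mul_mem (add_mem (mul_mem ?_ (pow_mem hXR 2)) (hcR _)) hhalf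
    exact ofNat_mem R 3
  have hXY : br Θ D X Y ∈ R := by
    have : br Θ D X Y = - ((algebraMap k F (θ A) * X + algebraMap k F (θ B)) * 2⁻¹) := by
      unfold br
      rw [hΘX, hDX, hΘY]
      field_simp
      ring
    rw [this]
    exact neg_mem (mul_mem (add_mem (mul_mem (hcR _) hXR) (hcR _)) hhalf)
  apply br_closed_adjoin
  · intro c c'
    unfold br
    rw [hDc, hDc]
    simp
  · rintro c s (rfl | rfl)
    · unfold br
      rw [hDc, hΘc, hDX, mul_zero, sub_zero]
      exact mul_mem (hcR _) hYR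
    · unfold br
      rw [hDc, hΘc, mul_zero, sub_zero]
      exact mul_mem (hcR _) hDYR
  · rintro s (rfl | rfl) s' (rfl | rfl)
    · rw [br_self]; exact zero_mem _
    · exact hXY
    · rw [br_antisymm]; exact neg_mem hXY
    · rw [br_self]; exact zero_mem _

/-- the case of the point at infinity -/
lemma br_val_infinite {A B : k} {X Y : F}
    (hE : Y ^ 2 = X ^ 3 + algebraMap k F A * X + algebraMap k F B) (hX : Transcendental k X)
    (hgen : IntermediateField.adjoin k {X, Y} = ⊤) (Θ D : Derivation k₀ F F)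
    (hDc : ∀ c : k, D (algebraMap k F c) = 0) (hDX : D X = Y) (θ : k → k)
    (hΘc : ∀ c : k, Θ (algebraMap k F c) = algebraMap k F (θ c)) (hΘX : Θ X = 0)
    (v : Valuation F Γ) (hv : ∀ c : k, v (algebraMap k F c) ≤ 1) (hvX : 1 < v X) :
    ∀ u w, v u ≤ 1 → v w ≤ 1 → v (br Θ D u w) ≤ 1 := by
  have hY0 := Y_ne_zero hE hX
  have hX0 : X ≠ 0 := by
    rintro rfl
    simp at hvX
  have hvX0 : 0 < v X := lt_trans zero_lt_one hvX
  have hvY : v Y ^ 2 = v X ^ 3 := by
    rw [← map_pow, ← map_pow, hE, add_assoc]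
    apply v.map_add_eq_of_lt_left
    rw [map_pow]
    refine lt_of_le_of_lt (v.map_add _ _) (max_lt ?_ ?_)
    · rw [map_mul]
      calc v (algebraMap k F A) * v X ≤ 1 * v X := by
            gcongr
            exact hv A
        _ = v X := one_mul _
        _ < v X ^ 3 := by
            calc v X = v X ^ 1 := (pow_one _).symm
              _ < v X ^ 3 := pow_lt_pow_right₀ hvX (by norm_num)
    · refine lt_of_le_of_lt (hv B) ?_
      exact one_lt_pow₀ hvX (by norm_num)
  set Z := X / Y with hZ
  set W := 1 / Y with hW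
  have hZ0 : Z ≠ 0 := div_ne_zero hX0 hY0
  have hW0 : W ≠ 0 := div_ne_zero one_ne_zero hY0
  have hvY0 : v Y ≠ 0 := by rw [Valuation.ne_zero_iff]; exact hY0
  have hvZ : v Z < 1 := by
    have h1 : v Z ^ 2 < 1 := by
      rw [hZ, map_div₀, div_pow, hvY]
      have : v X ^ 2 / v X ^ 3 = (v X)⁻¹ := by
        field_simp
      rw [this]
      exact inv_lt_one_of_one_lt₀ hvX
    by_contra h2
    push Not at h2
    exact absurd h1 (not_lt.mpr (one_le_pow₀ h2))
  have hvW : v W < 1 := by
    have h1 : v W ^ 2 < 1 := by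
      rw [hW, map_div₀, div_pow, hvY, map_one, one_pow, one_div]
      exact inv_lt_one_of_one_lt₀ (one_lt_pow₀ hvX (by norm_num))
    by_contra h2
    push Not at h2
    exact absurd h1 (not_lt.mpr (one_le_pow₀ h2))
  have hrel : W * (1 - algebraMap k F A * Z * W - algebraMap k F B * W ^ 2) = Z ^ 3 := by
    rw [hZ, hW]
    field_simp
    linear_combination hE
  set R := Algebra.adjoin k ({Z, W} : Set F) with hRdef
  have hZR : Z ∈ R := Algebra.subset_adjoin (by simp)
  have hWR : W ∈ R := Algebra.subset_adjoin (by simp)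
  have hcR : ∀ c, algebraMap k F c ∈ R := fun c => Subalgebra.algebraMap_mem _ c
  have hR : ∀ r ∈ R, v r ≤ 1 := by
    apply val_adjoin hv
    rintro s (rfl | rfl)
    · exact hvZ.le
    · exact hvW.le
  have hgen' : IntermediateField.adjoin k ({Z, W} : Set F) = ⊤ := by
    rw [eq_top_iff, ← hgen]
    apply IntermediateField.adjoin_le_iff.2
    have hZm : Z ∈ IntermediateField.adjoin k ({Z, W} : Set F) :=
      IntermediateField.subset_adjoin _ _ (by simp)
    have hWm : W ∈ IntermediateField.adjoin k ({Z, W} : Set F) :=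
      IntermediateField.subset_adjoin _ _ (by simp)
    rintro s (rfl | rfl)
    · have : s = Z / W := by rw [hZ, hW]; field_simp
      rw [this]
      exact div_mem hZm hWm
    · have : s = W⁻¹ := by rw [hW]; simp
      rw [this]
      exact inv_mem hWm
  have hnoeth := noeth_adjoin_two (k := k) Z W
  have hexp := adjoin_two_expand Z W (0 : k) (0 : k)
  have hval : ∀ {a b : F}, v a ≤ 1 → v b < 1 → v (a * b) < 1 := by
    intro a b ha hb
    rw [map_mul]
    calc v a * v b ≤ 1 * v b := by gcongr
      _ < 1 := by rw [one_mul]; exact hb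
  set s := 1 - algebraMap k F A * Z * W - algebraMap k F B * W ^ 2 with hs
  have hsR : s ∈ R := sub_mem (sub_mem (one_mem _) (mul_mem (mul_mem (hcR _) hZR) hWR))
    (mul_mem (hcR _) (pow_mem hWR 2))
  have hvs : v s = 1 := by
    have h1 : s = 1 - (algebraMap k F A * Z * W + algebraMap k F B * W ^ 2) := by rw [hs]; ring
    have h2 : v (algebraMap k F A * Z * W + algebraMap k F B * W ^ 2) < 1 := by
      refine lt_of_le_of_lt (v.map_add _ _) (max_lt ?_ ?_)
      · exact hval (val_mul_le_one (hv A) hvZ.le) hvW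
      · rw [pow_two, ← mul_assoc]
        exact hval (val_mul_le_one (hv B) hvW.le) hvW
    rw [h1, v.map_one_sub_of_lt h2]
  have hloc : ∀ u, v u ≤ 1 → ∃ a ∈ R, ∃ s ∈ R, v s = 1 ∧ u = a / s := by
    refine val_loc v R (frac_adjoin hgen') hR Z hZR hZ0 hvZ ?_
    intro r hr hr1
    obtain ⟨c, α, hα, β, hβ, h⟩ := hexp r hr
    rw [map_zero, sub_zero, sub_zero] at h
    have hc0 : c = 0 := by
      apply const_eq_zero hv _ _ hr1 h
      · exact hval (hR _ hα) hvZ
      · exact hval (hR _ hβ) hvW
    refine ⟨s, hsR, hvs, α * s + β * Z ^ 2, add_mem (mul_mem hα hsR) (mul_mem hβ (pow_mem hZR 2)), ?_⟩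
    rw [h, hc0, map_zero]
    linear_combination β * hrel
  refine br_closed_val Θ D v R hR ?_ hloc
  have hDY : D Y = (3 * X ^ 2 + algebraMap k F A) / 2 := by
    rw [D_Y hE hY0 D, hDc, hDc, hDX]
    field_simp
    ring
  have hΘY : Θ Y = (algebraMap k F (θ A) * X + algebraMap k F (θ B)) / (2 * Y) := by
    rw [D_Y hE hY0 Θ, hΘc, hΘc, hΘX]
    congr 1
    ring
  have hhalf : (2 : F)⁻¹ ∈ R := by
    have : (2 : F)⁻¹ = algebraMap k F (2⁻¹) := by rw [map_inv₀, map_ofNat]
    rw [this]
    exact hcR _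
  have h3R : (3 : F) ∈ R := ofNat_mem R 3
  have hDZ : D Z = - 2⁻¹ + algebraMap k F A * Z * W + 3 * 2⁻¹ * algebraMap k F B * W ^ 2 := by
    rw [hZ, hW, Derivation.leibniz_div, hDX, hDY]
    simp only [smul_eq_mul]
    field_simp
    linear_combination (3 : F) * hE
  have hDW : D W = - (2⁻¹ * (3 * Z ^ 2 + algebraMap k F A * W ^ 2)) := by
    rw [hZ, hW, Derivation.leibniz_div, hDY]
    simp only [smul_eq_mul, Derivation.map_one_eq_zero]
    field_simp
    ring
  have hDZR : D Z ∈ R := by
    rw [hDZ]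
    exact add_mem (add_mem (neg_mem hhalf) (mul_mem (mul_mem (hcR _) hZR) hWR))
      (mul_mem (mul_mem (mul_mem h3R hhalf) (hcR _)) (pow_mem hWR 2))
  have hDWR : D W ∈ R := by
    rw [hDW]
    exact neg_mem (mul_mem hhalf (add_mem (mul_mem h3R (pow_mem hZR 2))
      (mul_mem (hcR _) (pow_mem hWR 2))))
  have hZW : br Θ D Z W ∈ R := by
    have h1 : br Θ D Z W =
        2⁻¹ * (algebraMap k F (θ A) * Z * W ^ 2 + algebraMap k F (θ B) * W ^ 3) := by
      unfold br
      rw [hDZ, hDW, hZ, hW, Derivation.leibniz_div, Derivation.leibniz_div, hΘX, hΘY]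
      simp only [smul_eq_mul, Derivation.map_one_eq_zero]
      field_simp
      linear_combination
        (-3 * (X * algebraMap k F (θ A) + algebraMap k F (θ B))) * hE
    rw [h1]
    exact mul_mem hhalf (add_mem (mul_mem (mul_mem (hcR _) hZR) (pow_mem hWR 2))
      (mul_mem (hcR _) (pow_mem hWR 3)))
  apply br_closed_adjoin
  · intro c c'
    unfold br
    rw [hDc, hDc]
    simp
  · rintro c s' (rfl | rfl)
    · unfold br
      rw [hDc, hΘc, mul_zero, sub_zero]
      exact mul_mem (hcR _) hDZR
    · unfold br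
      rw [hDc, hΘc, mul_zero, sub_zero]
      exact mul_mem (hcR _) hDWR
  · rintro s₁ (rfl | rfl) s₂ (rfl | rfl)
    · rw [br_self]; exact zero_mem _
    · exact hZW
    · rw [br_antisymm]; exact neg_mem hZW
    · rw [br_self]; exact zero_mem _

end

end Pool.Agent.MPad0563
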