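import Mathlib
import Pool.Agent.Work.MP_ad0563_ag.Interface
import Pool.Agent.Work.MP_ad0563_ag_h67.Der
import Pool.Agent.Work.MP_ad0563_ag_h67.Ell2

/-!
# Block F1: the field theorem
-/

namespace Pool.Agent.MPad0563

open Polynomial

section

variable {k₀ k F Γ : Type} [Field k₀] [Field k] [Field F] [Algebra k F]
  [Algebra k₀ F] [LinearOrderedCommGroupWithZero Γ] [CharZero F]

lemma br_rel1 (Θ D : Derivation k₀ F F) {t x y : F} (rel : x ^ 3 + y ^ 3 + 1 + t ^ 9 = 0) :
    x ^ 2 * br Θ D t x = - (y ^ 2 * br Θ D t y) ∧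
      3 * t ^ 8 * br Θ D t x = y ^ 2 * br Θ D x y := by
  have h1 := congrArg Θ rel
  have h2 := congrArg D rel
  simp only [map_add, Derivation.leibniz_pow, Derivation.map_one_eq_zero, map_zero, smul_eq_mul,
    nsmul_eq_mul] at h1 h2
  push_cast at h1 h2
  have h3 : (3 : F) ≠ 0 := three_ne_zero
  constructor
  · apply mul_left_cancel₀ h3
    unfold br
    linear_combination (-D t) * h1 + (Θ t) * h2
  · apply mul_left_cancel₀ h3
    unfold br
    linear_combination (D x) * h1 - (Θ x) * h2

lemma phi_val (Θ D : Derivation k₀ F F) {v : Valuation F Γ}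
    (hv : ∀ c : k, v (algebraMap k F c) ≤ 1)
    (hbr : ∀ u w, v u ≤ 1 → v w ≤ 1 → v (br Θ D u w) ≤ 1)
    {t x y : F} (rel : x ^ 3 + y ^ 3 + 1 + t ^ 9 = 0) (hx : x ≠ 0) (hy : y ≠ 0)
    (ht : v t ≤ 1) : v (br Θ D t x / y ^ 2) ≤ 1 := by
  obtain ⟨e1, e2⟩ := br_rel1 Θ D rel
  have ht9 : v (t ^ 9) ≤ 1 := by rw [map_pow]; exact pow_le_one₀ zero_le ht
  have h3v : v (3 : F) = 1 := by
    have h5 : (3 : F) = algebraMap k F 3 := (map_ofNat (algebraMap k F) 3).symm
    rw [h5]
    apply val_const hv
    intro h6
    have : (3 : F) = 0 := by rw [h5, h6, map_zero]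
    exact three_ne_zero this
  by_cases hvx : v x ≤ 1
  · have hx3 : v (x ^ 3) ≤ 1 := by rw [map_pow]; exact pow_le_one₀ zero_le hvx
    have hvy : v y ≤ 1 := by
      have h1 : y ^ 3 = -(x ^ 3 + 1 + t ^ 9) := by linear_combination rel
      have h2 : v (y ^ 3) ≤ 1 := by
        rw [h1, Valuation.map_neg]
        exact val_add_le_one (val_add_le_one hx3 (by simp)) ht9
      rw [map_pow] at h2
      exact (pow_le_one_iff_of_nonneg zero_le (by norm_num)).mp h2
    by_cases hy1 : v y = 1
    · rw [map_div₀, map_pow, hy1, one_pow, div_one]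
      exact hbr _ _ ht hvx
    by_cases hx1 : v x = 1
    · have h1 : br Θ D t x / y ^ 2 = - br Θ D t y / x ^ 2 := by
        field_simp
        linear_combination e1
      rw [h1, map_div₀, map_pow, hx1, one_pow, div_one, Valuation.map_neg]
      exact hbr _ _ ht hvy
    by_cases ht1 : v t = 1
    · have ht0 : t ≠ 0 := by
        rintro rfl
        simp at ht1
      have h1 : br Θ D t x / y ^ 2 = br Θ D x y / (3 * t ^ 8) := by
        have h3 : (3 : F) ≠ 0 := three_ne_zero
        rw [div_eq_div_iff (pow_ne_zero 2 hy) (mul_ne_zero h3 (pow_ne_zero 8 ht0))]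
        linear_combination e2
      rw [h1, map_div₀, map_mul, map_pow, ht1, h3v, one_pow, mul_one, div_one]
      exact hbr _ _ hvx hvy
    exfalso
    have h1 : (1 : F) = -(x ^ 3 + y ^ 3 + t ^ 9) := by linear_combination rel
    have h2 : v (1 : F) < 1 := by
      rw [h1, Valuation.map_neg]
      refine lt_of_le_of_lt (v.map_add _ _) (max_lt ?_ ?_)
      · refine lt_of_le_of_lt (v.map_add _ _) (max_lt ?_ ?_)
        · rw [map_pow]
          exact pow_lt_one₀ zero_le (lt_of_le_of_ne hvx hx1) (by norm_num)
        · rw [map_pow]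
          exact pow_lt_one₀ zero_le (lt_of_le_of_ne hvy hy1) (by norm_num)
      · rw [map_pow]
        exact pow_lt_one₀ zero_le (lt_of_le_of_ne ht ht1) (by norm_num)
    rw [map_one] at h2
    exact lt_irrefl _ h2
  · push Not at hvx
    have hz : v x⁻¹ < 1 := by
      rw [map_inv₀]
      exact inv_lt_one_of_one_lt₀ hvx
    have hη : v (y / x) = 1 := by
      have h1 : (y / x) ^ 3 = -(1 + x⁻¹ ^ 3 * (1 + t ^ 9)) := by
        field_simp
        linear_combination rel
      have h2 : v ((y / x) ^ 3) = 1 := by
        rw [h1, Valuation.map_neg]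
        apply v.map_one_add_of_lt
        rw [map_mul, map_pow]
        calc v x⁻¹ ^ 3 * v (1 + t ^ 9) ≤ v x⁻¹ ^ 3 * 1 := by
              gcongr
              exact val_add_le_one (by simp) ht9
          _ < 1 := by
              rw [mul_one]
              exact pow_lt_one₀ zero_le hz (by norm_num)
      rw [map_pow] at h2
      exact (pow_eq_one_iff_of_nonneg zero_le (by norm_num)).mp h2
    have h1 : br Θ D t x / y ^ 2 = - br Θ D t x⁻¹ / (y / x) ^ 2 := by
      unfold br
      rw [Derivation.leibniz_inv, Derivation.leibniz_inv]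
      simp only [smul_eq_mul]
      field_simp
      ring
    rw [h1, map_div₀, map_pow, hη, one_pow, div_one, Valuation.map_neg]
    exact hbr _ _ ht hz.le

lemma phi_val' (Θ D : Derivation k₀ F F) {v : Valuation F Γ}
    (hv : ∀ c : k, v (algebraMap k F c) ≤ 1)
    (hbr : ∀ u w, v u ≤ 1 → v w ≤ 1 → v (br Θ D u w) ≤ 1)
    {t x y : F} (rel : x ^ 3 + y ^ 3 + 1 + t ^ 9 = 0) (hx : x ≠ 0) (hy : y ≠ 0) :
    v (br Θ D t x / y ^ 2) ≤ 1 ∧ v (t * (br Θ D t x / y ^ 2)) ≤ 1 := by
  by_cases ht : v t ≤ 1
  · have h1 := phi_val Θ D hv hbr rel hx hy ht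
    exact ⟨h1, val_mul_le_one ht h1⟩
  · push Not at ht
    have ht0 : t ≠ 0 := by
      rintro rfl
      simp at ht
    have hT : v t⁻¹ ≤ 1 := by
      rw [map_inv₀]
      exact (inv_lt_one_of_one_lt₀ ht).le
    have rel' : (x / t ^ 3) ^ 3 + (y / t ^ 3) ^ 3 + 1 + t⁻¹ ^ 9 = 0 := by
      field_simp
      linear_combination rel
    have h1 := phi_val Θ D hv hbr rel' (div_ne_zero hx (pow_ne_zero 3 ht0))
      (div_ne_zero hy (pow_ne_zero 3 ht0)) hT
    have h2 : br Θ D t⁻¹ (x / t ^ 3) / (y / t ^ 3) ^ 2 = - (t * (br Θ D t x / y ^ 2)) := by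
      unfold br
      rw [Derivation.leibniz_inv, Derivation.leibniz_inv, Derivation.leibniz_div,
        Derivation.leibniz_div, Derivation.leibniz_pow, Derivation.leibniz_pow]
      simp only [smul_eq_mul, nsmul_eq_mul]
      push_cast
      field_simp
      ring
    rw [h2, Valuation.map_neg] at h1
    refine ⟨?_, h1⟩
    have h3 : br Θ D t x / y ^ 2 = t⁻¹ * (t * (br Θ D t x / y ^ 2)) := by
      field_simp
    rw [h3]
    exact val_mul_le_one hT h1

end

/-- an element of all valuation rings over the algebraically closed field `k` is in `k` -/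
lemma mem_const {k F : Type} [Field k] [Field F] [Algebra k F] [IsAlgClosed k] {z : F}
    (h : ∀ V : ValuationSubring F, (∀ c : k, algebraMap k F c ∈ V) → z ∈ V) :
    ∃ c : k, algebraMap k F c = z := by
  by_contra hz
  set R : Subring F := (algebraMap k F).range with hR
  have hzR : z ∉ R := by
    rintro ⟨c, hc⟩
    exact hz ⟨c, hc⟩
  have hint : IsIntegrallyClosedIn R F := by
    rw [Subring.isIntegrallyClosedIn_iff]
    rintro w ⟨p, hp, hpw⟩
    have hsurj : Function.Surjective (algebraMap k F).rangeRestrict :=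
      (algebraMap k F).rangeRestrict_surjective
    obtain ⟨q, hq, -, hqm⟩ := Polynomial.lifts_and_natDegree_eq_and_monic
      (f := (algebraMap k F).rangeRestrict) (p := p) (by
        rw [Polynomial.lifts_iff_coeff_lifts]
        intro n
        exact hsurj _) hp
    have h1 : IsIntegral k w := by
      refine ⟨q, hqm, ?_⟩
      rw [← hpw, ← hq, Polynomial.eval₂_map]
      rfl
    exact minpoly.mem_range_of_degree_eq_one k w
      (IsAlgClosed.degree_eq_one_of_irreducible k (minpoly.irreducible h1))
  obtain ⟨V, hV, hzV⟩ := Subring.exists_le_valuationSubring_of_isIntegrallyClosedIn hzR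
  exact hzV (h V (fun c => hV ⟨c, rfl⟩))

/-- a transcendental element is a transcendence basis of an elliptic function field -/
lemma basis_X {k F : Type} [Field k] [Field F] [Algebra k F] {A B : k} {X Y : F}
    (hE : Y ^ 2 = X ^ 3 + algebraMap k F A * X + algebraMap k F B) (hX : Transcendental k X)
    (hgen : IntermediateField.adjoin k {X, Y} = ⊤) :
    IsTranscendenceBasis k (fun _ : Unit => X) := by
  have hind : AlgebraicIndependent k (fun _ : Unit => X) :=
    algebraicIndependent_unique_type_iff.mpr hX
  rw [hind.isTranscendenceBasis_iff_isAlgebraic]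
  have hXm : X ∈ Algebra.adjoin k (Set.range fun _ : Unit => X) :=
    Algebra.subset_adjoin ⟨(), rfl⟩
  constructor
  intro z
  have hz : z ∈ IntermediateField.adjoin k {X, Y} := by rw [hgen]; trivial
  have hXalg : IsAlgebraic (Algebra.adjoin k (Set.range fun _ : Unit => X)) X :=
    isAlgebraic_algebraMap (⟨X, hXm⟩ : Algebra.adjoin k (Set.range fun _ : Unit => X))
  have hcalg : ∀ c : k, IsAlgebraic (Algebra.adjoin k (Set.range fun _ : Unit => X))
      (algebraMap k F c) := by
    intro c
    have : algebraMap k F c = algebraMap (Algebra.adjoin k (Set.range fun _ : Unit => X)) F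
        (algebraMap k _ c) := by rw [← IsScalarTower.algebraMap_apply]
    rw [this]
    exact isAlgebraic_algebraMap _
  induction hz using IntermediateField.adjoin_induction with
  | mem x hx =>
    rcases hx with rfl | rfl
    · exact hXalg
    · have h1 : IsAlgebraic (Algebra.adjoin k (Set.range fun _ : Unit => X)) (x ^ 2) := by
        rw [hE]
        exact ((hXalg.pow 3).add ((hcalg A).mul hXalg)).add (hcalg B)
      exact h1.of_pow (by norm_num)
  | algebraMap c => exact hcalg c
  | add x y _ _ hx hy => exact hx.add hy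
  | inv x _ hx => exact hx.inv
  | mul x y _ _ hx hy => exact hx.mul hy

/-- if the derivation `D` kills `t` then `t` is constant -/
lemma const_of_D {k₀ k F : Type} [Field k₀] [Field k] [Field F] [CharZero k] [Algebra k F]
    [Algebra k₀ F] [IsAlgClosed k] {A B : k} {X Y : F}
    (hE : Y ^ 2 = X ^ 3 + algebraMap k F A * X + algebraMap k F B) (hX : Transcendental k X)
    (hgen : IntermediateField.adjoin k {X, Y} = ⊤) (D : Derivation k₀ F F)
    (hDc : ∀ c : k, D (algebraMap k F c) = 0) (hDX : D X ≠ 0) {t : F} (ht : D t = 0) :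
    ∃ c : k, algebraMap k F c = t := by
  by_contra hnot
  have htr : Transcendental k t := by
    intro halg
    apply hnot
    exact minpoly.mem_range_of_degree_eq_one k t
      (IsAlgClosed.degree_eq_one_of_irreducible k (minpoly.irreducible halg.isIntegral))
  have hind : AlgebraicIndependent k (fun _ : Unit => t) :=
    algebraicIndependent_unique_type_iff.mpr htr
  have hb : IsTranscendenceBasis k (fun _ : Unit => t) := by
    apply hind.isTranscendenceBasis_of_trdeg_le_of_finite
    rw [← (basis_X hE hX hgen).cardinalMk_eq_trdeg]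
  set K₁ := IntermediateField.adjoin k (Set.range fun _ : Unit => t) with hK₁
  have halg : Algebra.IsAlgebraic K₁ F := hb.isAlgebraic_field
  have hD0 : ∀ z ∈ K₁, D z = 0 := by
    intro z hz
    induction hz using IntermediateField.adjoin_induction with
    | mem x hx =>
      obtain ⟨_, rfl⟩ := hx
      exact ht
    | algebraMap c => exact hDc c
    | add x y _ _ hx hy => rw [map_add, hx, hy, add_zero]
    | inv x _ hx => rw [Derivation.leibniz_inv, hx, smul_zero]
    | mul x y _ _ hx hy => rw [Derivation.leibniz, hx, hy, smul_zero, smul_zero, add_zero]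
  let D₁ : Derivation K₁ F F := Derivation.mk'
    { toFun := D
      map_add' := fun a b => map_add D a b
      map_smul' := fun c z => by
        rw [Algebra.smul_def, Derivation.leibniz]
        change (c : F) • D z + z • D (c : F) = _
        rw [hD0 c c.2, smul_zero, add_zero]
        rfl }
    (fun a b => D.leibniz a b)
  have hcz : CharZero K₁ := charZero_of_injective_algebraMap (algebraMap k K₁).injective
  have h1 : D₁ = 0 := derivation_eq_zero D₁
  apply hDX
  have h2 : D₁ X = 0 := by rw [h1]; rfl
  exact h2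

theorem stmt_F1 : Stmt_F1 := by
  intro k₀ k F _ _ _ _ _ _ _ _ _ A B X Y hd hE hX hgen t x y rel hind
  have hck : CharZero k := charZero_of_injective_algebraMap (algebraMap k₀ k).injective
  have hcF : CharZero F := charZero_of_injective_algebraMap (algebraMap k F).injective
  have hY0 := Y_ne_zero hE hX
  -- nonvanishing
  have hx0 : x ≠ 0 := by
    have := hind.ne_zero 1
    simpa using this
  have hy0 : y ≠ 0 := by
    rintro rfl
    have h1 : MvPolynomial.aeval ![t, x]
        (MvPolynomial.X 1 ^ 3 + 1 + MvPolynomial.X 0 ^ 9 : MvPolynomial (Fin 2) k₀) = 0 := by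
      simp only [map_add, map_pow, MvPolynomial.aeval_X, map_one]
      simp only [Matrix.cons_val_one, Matrix.cons_val_zero, Matrix.cons_val_fin_one]
      linear_combination rel
    have h2 := (algebraicIndependent_iff.mp hind) _ h1
    have h3 := congrArg (MvPolynomial.eval (fun _ => (0 : k₀))) h2
    simp at h3
  have hbX := basis_X hE hX hgen
  -- the derivation `D`
  obtain ⟨D, hDc', hDX'⟩ := exists_derivation hbX (0 : Derivation k₀ k F) (fun _ => Y)
  have hDc : ∀ c : k, D (algebraMap k F c) = 0 := hDc'
  have hDX : D X = Y := hDX' ()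
  -- the derivation `δ`
  obtain ⟨δ, hδt, hδx⟩ : ∃ δ : Derivation k₀ F F, δ t = 0 ∧ δ x = 1 := by
    classical
    obtain ⟨u, hu, hb⟩ := exists_isTranscendenceBasis_superset hind.to_subtype_range
    obtain ⟨δ, -, hδ⟩ := exists_derivation (k₀ := k₀) hb (0 : Derivation k₀ k₀ F)
      (fun i => if (i : F) = x then 1 else 0)
    have htu : t ∈ u := hu ⟨0, rfl⟩
    have hxu : x ∈ u := hu ⟨1, rfl⟩
    have hne : t ≠ x := by
      intro h
      have := hind.injective (a₁ := 0) (a₂ := 1) h
      exact absurd this (by decide)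
    have h1 := hδ ⟨t, htu⟩
    have h2 := hδ ⟨x, hxu⟩
    simp only [hne, if_false] at h1
    simp only [if_true] at h2
    exact ⟨δ, h1, h2⟩
  by_contra hnot
  let b := Module.Basis.ofVectorSpace k F
  set ι := Module.Basis.ofVectorSpaceIndex k F with hι
  -- the derivations of the constants
  let θ : ι → Derivation k₀ k F := fun i => Derivation.mk'
    { toFun := fun c => algebraMap k F (b.coord i (δ (algebraMap k F c)))
      map_add' := fun c c' => by simp only [map_add]
      map_smul' := fun r c => by
        have h1 : algebraMap k F (r • c) = algebraMap k₀ F r * algebraMap k F c := by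
          rw [Algebra.smul_def, map_mul, ← IsScalarTower.algebraMap_apply]
        rw [h1, Derivation.leibniz, Derivation.map_algebraMap, smul_zero, add_zero, smul_eq_mul]
        have h2 : algebraMap k₀ F r * δ (algebraMap k F c) =
            (algebraMap k₀ k r) • δ (algebraMap k F c) := by
          rw [Algebra.smul_def, ← IsScalarTower.algebraMap_apply]
        rw [h2, map_smul, smul_eq_mul, map_mul, ← IsScalarTower.algebraMap_apply]
        rw [RingHom.id_apply, Algebra.smul_def] }
    (fun c c' => by
      simp only [LinearMap.coe_mk, AddHom.coe_mk, map_mul, Derivation.leibniz, smul_eq_mul]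
      have h1 : algebraMap k F c * δ (algebraMap k F c') = c • δ (algebraMap k F c') := by
        rw [Algebra.smul_def]
      have h2 : algebraMap k F c' * δ (algebraMap k F c) = c' • δ (algebraMap k F c) := by
        rw [Algebra.smul_def]
      rw [h1, h2, map_add, map_smul, map_smul, map_add, smul_eq_mul, smul_eq_mul, map_mul, map_mul,
        Algebra.smul_def, Algebra.smul_def])
  have hex : ∀ i, ∃ Θ : Derivation k₀ F F,
      (∀ c : k, Θ (algebraMap k F c) = algebraMap k F (b.coord i (δ (algebraMap k F c)))) ∧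
        Θ X = 0 := by
    intro i
    obtain ⟨Θ, h1, h2⟩ := exists_derivation hbX (θ i) (fun _ => (0 : F))
    exact ⟨Θ, h1, h2 ()⟩
  choose Θ hΘc hΘX using hex
  -- the brackets vanish
  have hzero : ∀ i, br (Θ i) D t x = 0 := by
    intro i
    have hV : ∀ V : ValuationSubring F, (∀ c : k, algebraMap k F c ∈ V) →
        br (Θ i) D t x / y ^ 2 ∈ V ∧ t * (br (Θ i) D t x / y ^ 2) ∈ V := by
      intro V hVc
      have hv : ∀ c : k, V.valuation (algebraMap k F c) ≤ 1 := fun c =>
        (V.valuation_le_one_iff _).mpr (hVc c)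
      have hbr : ∀ u w, V.valuation u ≤ 1 → V.valuation w ≤ 1 →
          V.valuation (br (Θ i) D u w) ≤ 1 := by
        by_cases hvX : V.valuation X ≤ 1
        · exact br_val_finite hd hE hX hgen (Θ i) D hDc hDX _ (hΘc i) (hΘX i) V.valuation hv hvX
        · push Not at hvX
          exact br_val_infinite hE hX hgen (Θ i) D hDc hDX _ (hΘc i) (hΘX i) V.valuation hv hvX
      obtain ⟨h1, h2⟩ := phi_val' (Θ i) D hv hbr rel hx0 hy0
      exact ⟨(V.valuation_le_one_iff _).mp h1, (V.valuation_le_one_iff _).mp h2⟩
    obtain ⟨c₁, hc₁⟩ := mem_const (fun V hVc => (hV V hVc).1)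
    obtain ⟨c₂, hc₂⟩ := mem_const (fun V hVc => (hV V hVc).2)
    by_contra hne
    have hφ : br (Θ i) D t x / y ^ 2 ≠ 0 := div_ne_zero hne (pow_ne_zero 2 hy0)
    apply hnot
    refine ⟨c₂ / c₁, ?_⟩
    rw [map_div₀, hc₁, hc₂, mul_div_cancel_right₀ _ hφ]
  -- the expansion of `δ`
  set e := δ X / Y with he
  have hP : ∀ u : F, ∀ᶠ s : Finset ι in Filter.atTop,
      δ u = ∑ i ∈ s, Θ i u * b i + e * D u := by
    have hc : ∀ c : k, ∀ᶠ s : Finset ι in Filter.atTop,
        δ (algebraMap k F c) = ∑ i ∈ s, Θ i (algebraMap k F c) * b i +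
          e * D (algebraMap k F c) := by
      intro c
      filter_upwards [Filter.eventually_ge_atTop (b.repr (δ (algebraMap k F c))).support] with s hs
      rw [hDc, mul_zero, add_zero]
      have h1 : δ (algebraMap k F c) = ∑ i ∈ s, b.repr (δ (algebraMap k F c)) i • b i := by
        conv_lhs => rw [← b.linearCombination_repr (δ (algebraMap k F c))]
        rw [Finsupp.linearCombination_apply]
        exact Finsupp.sum_of_support_subset _ hs _ (by simp)
      conv_lhs => rw [h1]
      apply Finset.sum_congr rfl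
      intro i _
      rw [hΘc, Algebra.smul_def]
      rfl
    have hXP : ∀ᶠ s : Finset ι in Filter.atTop, δ X = ∑ i ∈ s, Θ i X * b i + e * D X := by
      apply Filter.Eventually.of_forall
      intro s
      simp only [hΘX, zero_mul, Finset.sum_const_zero, zero_add, hDX, he]
      field_simp
    have hYP : ∀ᶠ s : Finset ι in Filter.atTop, δ Y = ∑ i ∈ s, Θ i Y * b i + e * D Y := by
      filter_upwards [hc A, hc B, hXP] with s h1 h2 h3
      have h2Y : (2 : F) * Y ≠ 0 := mul_ne_zero two_ne_zero hY0
      have hsum : ∑ i ∈ s, Θ i Y * b i = ((3 * X ^ 2 + algebraMap k F A) * ∑ i ∈ s, Θ i X * b i +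
          (∑ i ∈ s, Θ i (algebraMap k F A) * b i) * X + ∑ i ∈ s, Θ i (algebraMap k F B) * b i)
          / (2 * Y) := by
        rw [Finset.mul_sum, Finset.sum_mul, ← Finset.sum_add_distrib, ← Finset.sum_add_distrib,
          Finset.sum_div]
        apply Finset.sum_congr rfl
        intro i _
        rw [D_Y hE hY0 (Θ i)]
        field_simp
      rw [hsum, D_Y hE hY0 δ, D_Y hE hY0 D, h1, h2, h3]
      field_simp
      ring
    intro u
    have hu : u ∈ IntermediateField.adjoin k {X, Y} := by rw [hgen]; trivial
    induction hu using IntermediateField.adjoin_induction with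
    | mem x hx =>
      rcases hx with rfl | rfl
      · exact hXP
      · exact hYP
    | algebraMap c => exact hc c
    | add x y _ _ hx hy =>
      filter_upwards [hx, hy] with s h1 h2
      rw [map_add, h1, h2, map_add]
      have : ∀ i, Θ i (x + y) * b i = Θ i x * b i + Θ i y * b i := by
        intro i
        rw [map_add]; ring
      simp only [this, Finset.sum_add_distrib]
      ring
    | inv x _ hx =>
      filter_upwards [hx] with s h1
      rw [Derivation.leibniz_inv, Derivation.leibniz_inv, h1]
      have : ∀ i, Θ i x⁻¹ * b i = - x⁻¹ ^ 2 * (Θ i x * b i) := by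
        intro i
        rw [Derivation.leibniz_inv, smul_eq_mul]; ring
      simp only [this, ← Finset.mul_sum, smul_eq_mul]
      ring
    | mul x y _ _ hx hy =>
      filter_upwards [hx, hy] with s h1 h2
      rw [Derivation.leibniz, Derivation.leibniz, h1, h2]
      have : ∀ i, Θ i (x * y) * b i = x * (Θ i y * b i) + y * (Θ i x * b i) := by
        intro i
        rw [Derivation.leibniz, smul_eq_mul, smul_eq_mul]; ring
      simp only [this, Finset.sum_add_distrib, ← Finset.mul_sum, smul_eq_mul]
      ring
  obtain ⟨s, hs1, hs2⟩ := ((hP t).and (hP x)).exists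
  have hDt : D t = 0 := by
    have h1 : ∑ i ∈ s, (D x * (Θ i t * b i) - D t * (Θ i x * b i)) = 0 := by
      apply Finset.sum_eq_zero
      intro i _
      have := hzero i
      unfold br at this
      linear_combination (b i) * this
    rw [Finset.sum_sub_distrib, ← Finset.mul_sum, ← Finset.mul_sum] at h1
    rw [hδt] at hs1
    rw [hδx] at hs2
    linear_combination (D t) * hs2 - (D x) * hs1 - h1
  exact hnot (const_of_D hE hX hgen D hDc (by rw [hDX]; exact hY0) hDt)

end Pool.Agent.MPad0563
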