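import Mathlib
import Pool.Agent.Work.MP_ad0563_ag.BlockA
import Pool.Agent.Work.MP_ad0563_ag_h67.F1
import Pool.Agent.Work.MP_ad0563_ag_h67.E1

/-!
# Block E2, part 1: homomorphisms from subfields generated by coordinates
-/

open MvPolynomial

namespace Pool.Agent.MPad0563

open scoped IntermediateField.algebraAdjoinAdjoin in
/-- two systems of elements with the same relations -/
lemma exists_hom_adjoin {σ k0 L M : Type} [Field k0] [Field L] [Field M] [Algebra k0 L]
    [Algebra k0 M] (u : σ → L) (w : σ → M)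
    (h : ∀ P : MvPolynomial σ k0, aeval u P = 0 ↔ aeval w P = 0) :
    ∃ ε : IntermediateField.adjoin k0 (Set.range u) →ₐ[k0] M,
      ∀ i (hi : u i ∈ IntermediateField.adjoin k0 (Set.range u)), ε ⟨u i, hi⟩ = w i := by
  have hmem : ∀ P : MvPolynomial σ k0, aeval u P ∈ Algebra.adjoin k0 (Set.range u) := by
    intro P
    rw [Algebra.adjoin_range_eq_range_aeval]
    exact ⟨P, rfl⟩
  let π : MvPolynomial σ k0 →ₐ[k0] Algebra.adjoin k0 (Set.range u) :=
    (aeval u).codRestrict _ hmem
  have hπ : Function.Surjective π := by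
    rintro ⟨z, hz⟩
    rw [Algebra.adjoin_range_eq_range_aeval] at hz
    obtain ⟨P, hP⟩ := hz
    exact ⟨P, Subtype.ext hP⟩
  have hπ0 : ∀ P, π P = 0 ↔ aeval u P = 0 := by
    intro P
    constructor
    · intro h0
      exact congrArg Subtype.val h0
    · intro h0
      exact Subtype.ext h0
  let χ0 : (MvPolynomial σ k0 ⧸ RingHom.ker π) →ₐ[k0] M :=
    Ideal.Quotient.liftₐ _ (aeval w) (by
      intro P hP
      rw [RingHom.mem_ker] at hP
      exact (h P).mp ((hπ0 P).mp hP))
  let χ : Algebra.adjoin k0 (Set.range u) →ₐ[k0] M :=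
    χ0.comp (Ideal.quotientKerAlgEquivOfSurjective hπ).symm.toAlgHom
  have hχ : ∀ P, χ (π P) = aeval w P := by
    intro P
    have e2 : (Ideal.quotientKerAlgEquivOfSurjective hπ).symm (π P) = Ideal.Quotient.mk _ P := by
      rw [AlgEquiv.symm_apply_eq]
      rfl
    change χ0 ((Ideal.quotientKerAlgEquivOfSurjective hπ).symm (π P)) = _
    rw [e2]
    rfl
  have hinj : Function.Injective χ := by
    rw [injective_iff_map_eq_zero]
    intro z hz
    obtain ⟨P, rfl⟩ := hπ z
    rw [hχ] at hz
    exact (hπ0 P).mpr ((h P).mpr hz)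
  refine ⟨IsFractionRing.liftAlgHom (K := IntermediateField.adjoin k0 (Set.range u)) hinj, ?_⟩
  intro i hi
  rw [IsFractionRing.liftAlgHom_apply]
  have h1 : (⟨u i, hi⟩ : IntermediateField.adjoin k0 (Set.range u)) =
      algebraMap (Algebra.adjoin k0 (Set.range u)) _ (π (X i)) := by
    apply Subtype.ext
    change u i = aeval u (X i)
    rw [aeval_X]
  rw [h1, IsFractionRing.lift_algebraMap]
  change χ (π (X i)) = _
  rw [hχ, aeval_X]

lemma countable_adjoin {k0 L : Type} [Field k0] [Countable k0] [Field L] [Algebra k0 L] {S : Set L}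
    (hS : S.Countable) : Countable (IntermediateField.adjoin k0 S) := by
  have h1 := IntermediateField.cardinalMk_adjoin_le k0 S
  rw [← Cardinal.mk_le_aleph0_iff]
  refine h1.trans ?_
  have h2 : Countable S := hS.to_subtype
  simp only [sup_le_iff, Cardinal.mk_le_aleph0, le_refl, and_self]

lemma closedPairs_scale {ι κ L : Type} [Field L] [Algebra ℂ L] (f : ι → L) (g : κ → L) {c c' : L}
    (hc : c ≠ 0) (hc' : c' ≠ 0) :
    closedPairs (fun i => c * f i) (fun j => c' * g j) = closedPairs f g := by
  ext pq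
  constructor
  · intro h d e F hF h0
    apply h d e F hF
    rw [aeval_biform_smul hF, h0, mul_zero]
  · intro h d e F hF h0
    apply h d e F hF
    rw [aeval_biform_smul hF] at h0
    exact (mul_eq_zero.1 h0).resolve_left (mul_ne_zero (pow_ne_zero _ hc) (pow_ne_zero _ hc'))

lemma closedPts_scale {ι L : Type} [Field L] [Algebra ℂ L] (f : ι → L) {c : L}
    (hc : c ≠ 0) : closedPts (fun i => c * f i) = closedPts f := by
  ext p
  constructor
  · intro h d F hF h0
    apply h d F hF
    rw [aeval_form_smul hF, h0, mul_zero]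
  · intro h d F hF h0
    apply h d F hF
    rw [aeval_form_smul hF] at h0
    exact (mul_eq_zero.1 h0).resolve_left (pow_ne_zero _ hc)

end Pool.Agent.MPad0563
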