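import Mathlib
import Pool.Agent.Work.MP_ad0563_ag_h67.E2a

/-!
# Block E2: descent
-/

open MvPolynomial

namespace Pool.Agent.MPad0563

theorem E2core (hA4 : Stmt_A4) {k0 ι κ L : Type} [Fintype ι] [Fintype κ] [Field k0] [Countable k0]
    [Algebra k0 ℂ] [Field L] [Algebra ℂ L] [Algebra k0 L] [IsScalarTower k0 ℂ L]
    (f : ι → L) (g : κ → L) (i₀ : ι) (j₀ : κ) (hf : f i₀ = 1) (hg : g j₀ = 1)
    (S : Set (MvPolynomial (ι ⊕ κ) k0))
    (hS : ∀ F : MvPolynomial (ι ⊕ κ) ℂ, aeval (Sum.elim f g) F = 0 →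
      F ∈ Ideal.span (map (algebraMap k0 ℂ) '' S))
    (hS' : ∀ F ∈ S, aeval (Sum.elim f g) F = 0)
    (G0 : MvPolynomial κ k0) (hG0 : aeval g G0 ≠ 0)
    (hell : ∀ (τ : κ → ℂ) (hτ : τ ≠ 0), Projectivization.mk ℂ τ hτ ∈ closedPts g →
      aeval τ G0 ≠ (0 : ℂ) → ∃ E : ProjVar ι,
        E.pts = {z | (z, Projectivization.mk ℂ τ hτ) ∈ closedPairs f g} ∧ IsEllipticField E.K)
    (t x y : L) (ht : t ∈ IntermediateField.adjoin k0 (Set.range f))
    (hx : x ∈ IntermediateField.adjoin k0 (Set.range f))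
    (hy : y ∈ IntermediateField.adjoin k0 (Set.range f))
    (rel : x ^ 3 + y ^ 3 + 1 + t ^ 9 = 0) (hind : AlgebraicIndependent k0 ![t, x]) :
    IsAlgebraic (IntermediateField.adjoin k0 (Set.range g)) t := by
  classical
  set u : ι ⊕ κ → L := Sum.elim f g with hu
  set L0 := IntermediateField.adjoin k0 (Set.range u) with hL0
  have huL : ∀ i, u i ∈ L0 := fun i => IntermediateField.subset_adjoin _ _ ⟨i, rfl⟩
  have hcount : Countable L0 := countable_adjoin (Set.finite_range u).countable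
  let u0 : ι ⊕ κ → L0 := fun i => ⟨u i, huL i⟩
  have hu0 : ∀ P : MvPolynomial (ι ⊕ κ) k0, ((aeval u0 P : L0) : L) = aeval u P := by
    intro P
    have h1 : (L0.val).comp (aeval u0) = aeval u := by
      ext j
      simp [u0]
    exact congrArg (fun φ => φ P) h1
  have hu00 : ∀ P : MvPolynomial (ι ⊕ κ) k0, aeval u0 P = 0 ↔ aeval u P = 0 := by
    intro P
    rw [← hu0]
    constructor
    · intro h; rw [h]; rfl
    · intro h; exact Subtype.ext h
  -- (a)
  have hsig : ∀ (σ : L0 →ₐ[k0] ℂ) (F : MvPolynomial (ι ⊕ κ) ℂ), aeval u F = 0 →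
      eval (fun i => σ (u0 i)) F = 0 := by
    intro σ F hF
    have h1 := hS F hF
    have h2 : Ideal.span (map (algebraMap k0 ℂ) '' S) ≤
        RingHom.ker (eval (fun i => σ (u0 i))) := by
      rw [Ideal.span_le]
      rintro _ ⟨P, hP, rfl⟩
      change eval (fun i => σ (u0 i)) (map (algebraMap k0 ℂ) P) = 0
      rw [eval_map, ← aeval_def]
      have h3 : aeval (fun i => σ (u0 i)) P = σ (aeval u0 P) := by
        have : σ.comp (aeval u0) = aeval (fun i => σ (u0 i)) := by
          ext j; simp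
        exact (congrArg (fun φ => φ P) this).symm
      rw [h3, (hu00 P).mpr (hS' P hP), map_zero]
    exact h2 h1
  have hui : u (Sum.inl i₀) = 1 := hf
  have huj : u (Sum.inr j₀) = 1 := hg
  have hu0i : u0 (Sum.inl i₀) = 1 := Subtype.ext hui
  have hu0j : u0 (Sum.inr j₀) = 1 := Subtype.ext huj
  -- (b)
  have hpne : ∀ (σ : L0 →ₐ[k0] ℂ), (fun i => σ (u0 (Sum.inl i))) ≠ 0 := by
    intro σ h
    have := congrFun h i₀
    simp [hu0i] at this
  have hτne : ∀ (σ : L0 →ₐ[k0] ℂ), (fun j => σ (u0 (Sum.inr j))) ≠ 0 := by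
    intro σ h
    have := congrFun h j₀
    simp [hu0j] at this
  have hsum : ∀ (σ : L0 →ₐ[k0] ℂ), (fun i => σ (u0 i)) =
      Sum.elim (fun i => σ (u0 (Sum.inl i))) (fun j => σ (u0 (Sum.inr j))) := by
    intro σ
    funext i
    cases i <;> rfl
  have hpair : ∀ (σ : L0 →ₐ[k0] ℂ), (Projectivization.mk ℂ _ (hpne σ),
      Projectivization.mk ℂ _ (hτne σ)) ∈ closedPairs f g := by
    intro σ
    rw [stmt_A0']
    intro d e F _ h0
    rw [← hsum]
    exact hsig σ F h0
  have hTpt : ∀ (σ : L0 →ₐ[k0] ℂ), Projectivization.mk ℂ _ (hτne σ) ∈ closedPts g := by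
    intro σ
    rw [stmt_A0]
    intro d F _ h0
    have h1 : aeval u (rename Sum.inr F) = 0 := by
      rw [aeval_rename]
      exact h0
    have h2 := hsig σ _ h1
    rw [eval_rename] at h2
    exact h2
  -- (c)
  obtain ⟨σ0, hσ0⟩ := stmt_E1 k0 L0 (algebraMap k0 L0) (algebraMap k0 ℂ)
  let σ : L0 →ₐ[k0] ℂ := { σ0 with commutes' := fun r => congrArg (fun φ => φ r) hσ0 }
  set p : ι → ℂ := fun i => σ (u0 (Sum.inl i)) with hp
  set τ : κ → ℂ := fun j => σ (u0 (Sum.inr j)) with hτ
  have hpi : p i₀ = 1 := by simp only [hp, hu0i, map_one]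
  have hτj : τ j₀ = 1 := by simp only [hτ, hu0j, map_one]
  have hGτ : aeval τ G0 ≠ (0 : ℂ) := by
    have h1 : aeval τ G0 = σ (aeval (fun j => u0 (Sum.inr j)) G0) := by
      have : σ.comp (aeval (fun j => u0 (Sum.inr j))) = aeval τ := by
        ext j; simp [hτ]
      exact (congrArg (fun φ => φ G0) this).symm
    have h2 : ((aeval (fun j => u0 (Sum.inr j)) G0 : L0) : L) = aeval g G0 := by
      have h1 : (L0.val).comp (aeval (fun j => u0 (Sum.inr j))) = aeval g := by
        ext j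
        simp [u0, hu]
      exact congrArg (fun φ => φ G0) h1
    rw [h1]
    intro h3
    rw [map_eq_zero] at h3
    apply hG0
    rw [← h2, h3]
    rfl
  obtain ⟨E, hEpts, hEell⟩ := hell τ (hτne σ) (hTpt σ) hGτ
  have hpE : ∀ (σ' : L0 →ₐ[k0] ℂ), (∀ j, σ' (u0 (Sum.inr j)) = τ j) →
      Projectivization.mk ℂ _ (hpne σ') ∈ E.pts := by
    intro σ' h
    rw [hEpts]
    have h1 := hpair σ'
    have h2 : (fun j => σ' (u0 (Sum.inr j))) = τ := funext h
    simp only [h2] at h1
    exact h1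
  have hpE0 : Projectivization.mk ℂ p (hpne σ) ∈ E.pts := hpE σ (fun j => rfl)
  have hEi : E.f i₀ ≠ 0 := (stmt_A1 ι E.K E.f p (hpne σ) i₀ (by rw [hpi]; exact one_ne_zero) hpE0).1
  set e : ι → E.K := fun i => E.f i / E.f i₀ with he
  -- (e)
  have hE1 : ∀ F : MvPolynomial (ι ⊕ κ) ℂ, aeval u F = 0 →
      aeval (Sum.elim e (fun j => algebraMap ℂ E.K (τ j))) F = 0 := by
    intro F hF
    set H : MvPolynomial ι ℂ := aeval (Sum.elim X (fun j => C (τ j))) F with hH
    have key : ∀ (M : Type) [Field M] [Algebra ℂ M] (a : ι → M),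
        aeval a H = aeval (Sum.elim a (fun j => algebraMap ℂ M (τ j))) F := by
      intro M _ _ a
      have h2 : (aeval a).comp (aeval (Sum.elim X (fun j => C (τ j))) :
            MvPolynomial (ι ⊕ κ) ℂ →ₐ[ℂ] MvPolynomial ι ℂ) =
          aeval (Sum.elim a (fun j => algebraMap ℂ M (τ j))) := by
        ext j
        cases j <;> simp
      exact congrArg (fun φ => φ F) h2
    obtain ⟨Hh, hHh, hHh2⟩ := exists_homog H i₀ H.totalDegree le_rfl
    have hform : IsForm (Hh * X i₀) (H.totalDegree + 1) := hHh.mul (isHomogeneous_X ℂ i₀)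
    have hvan : ∀ z ∈ closedPts E.f, eval z.rep (Hh * X i₀) = 0 := by
      intro z hz
      rw [map_mul, eval_X]
      by_cases hz0 : z.rep i₀ = 0
      · rw [hz0, mul_zero]
      have hz' : z ∈ E.pts := hz
      rw [hEpts] at hz'
      have hz2 : (Projectivization.mk ℂ z.rep z.rep_nonzero,
          Projectivization.mk ℂ τ (hτne σ)) ∈ closedPairs f g := by
        rw [z.mk_rep]; exact hz'
      rw [stmt_A0'] at hz2
      obtain ⟨D, D', F', hF', hF2⟩ := exists_bihomog F i₀ j₀
      have h3 : aeval (Sum.elim f g) F' = 0 := by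
        rw [hF2 L f g (by rw [hf]; exact one_ne_zero) (by rw [hg]; exact one_ne_zero)]
        have h4 : (fun j => f j / f i₀) = f := by funext j; rw [hf, div_one]
        have h5 : (fun j => g j / g j₀) = g := by funext j; rw [hg, div_one]
        rw [h4, h5]
        rw [show aeval (Sum.elim f g) F = 0 from hF, mul_zero]
      have h4 := hz2 D D' F' hF' h3
      have h5 := hF2 ℂ z.rep τ hz0 (by rw [hτj]; exact one_ne_zero)
      rw [aeval_eq_eval, aeval_eq_eval] at h5
      have h5' : eval (Sum.elim z.rep τ) F' = z.rep i₀ ^ D * τ j₀ ^ D' *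
        eval (Sum.elim (fun j => z.rep j / z.rep i₀) (fun l => τ l / τ j₀)) F := h5
      rw [h4, hτj] at h5'
      have h6 : eval (Sum.elim (fun j => z.rep j / z.rep i₀) (fun l => τ l / 1)) F = 0 := by
        rcases mul_eq_zero.mp h5'.symm with h | h
        · exact absurd h (mul_ne_zero (pow_ne_zero _ hz0) (by simp))
        · exact h
      simp only [div_one] at h6
      have h7 := hHh2 ℂ z.rep hz0
      rw [key ℂ] at h7
      rw [aeval_eq_eval, aeval_eq_eval] at h7
      have h7' : eval z.rep Hh = z.rep i₀ ^ H.totalDegree *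
        eval (Sum.elim (fun j => z.rep j / z.rep i₀) (fun j => τ j)) F := h7
      rw [h7', h6, mul_zero, zero_mul]
    have h8 := hA4 ι E.K E.f E.f_ne _ _ hform hvan
    rw [map_mul, aeval_X] at h8
    have h9 := (mul_eq_zero.mp h8).resolve_right hEi
    rw [hHh2 E.K E.f hEi] at h9
    have h10 := (mul_eq_zero.mp h9).resolve_left (pow_ne_zero _ hEi)
    rw [← key E.K]
    exact h10
  -- (e2)
  have hE2 : ∀ H : MvPolynomial ι ℂ, aeval e H = 0 → ∀ (p' : ι → ℂ) (hp' : p' ≠ 0), p' i₀ = 1 →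
      Projectivization.mk ℂ p' hp' ∈ E.pts → eval p' H = 0 := by
    intro H hH p' hp' hp1 hmem
    obtain ⟨Hh, hHh, hHh2⟩ := exists_homog H i₀ H.totalDegree le_rfl
    have h1 : aeval E.f Hh = 0 := by
      rw [hHh2 E.K E.f hEi]
      rw [show aeval (fun j => E.f j / E.f i₀) H = 0 from hH, mul_zero]
    have hmem' : Projectivization.mk ℂ p' hp' ∈ closedPts E.f := hmem
    rw [stmt_A0] at hmem'
    have h2 := hmem' _ Hh hHh h1
    have h3 := hHh2 ℂ p' (by rw [hp1]; exact one_ne_zero)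
    rw [aeval_eq_eval, aeval_eq_eval] at h3
    have h3' : eval p' Hh = p' i₀ ^ H.totalDegree * eval (fun j => p' j / p' i₀) H := h3
    rw [h2, hp1, one_pow, one_mul] at h3'
    simp only [div_one] at h3'
    exact h3'.symm
  -- (f)
  let _ : Algebra k0 E.K := ((algebraMap ℂ E.K).comp (algebraMap k0 ℂ)).toAlgebra
  have hst : IsScalarTower k0 ℂ E.K := IsScalarTower.of_algebraMap_eq (fun _ => rfl)
  set w : ι ⊕ κ → E.K := Sum.elim e (fun j => algebraMap ℂ E.K (τ j)) with hw
  have hiff : ∀ P : MvPolynomial (ι ⊕ κ) k0, aeval u P = 0 ↔ aeval w P = 0 := by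
    intro P
    constructor
    · intro h
      have h1 : aeval u (map (algebraMap k0 ℂ) P) = 0 := by
        rw [aeval_map_algebraMap]; exact h
      have h2 := hE1 _ h1
      rw [aeval_map_algebraMap] at h2
      exact h2
    · intro h
      set H : MvPolynomial ι ℂ :=
        aeval (Sum.elim X (fun j => C (τ j))) (map (algebraMap k0 ℂ) P) with hH
      have key : ∀ (M : Type) [Field M] [Algebra ℂ M] (a : ι → M),
          aeval a H = aeval (Sum.elim a (fun j => algebraMap ℂ M (τ j)))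
            (map (algebraMap k0 ℂ) P) := by
        intro M _ _ a
        have h2 : (aeval a).comp (aeval (Sum.elim X (fun j => C (τ j))) :
              MvPolynomial (ι ⊕ κ) ℂ →ₐ[ℂ] MvPolynomial ι ℂ) =
            aeval (Sum.elim a (fun j => algebraMap ℂ M (τ j))) := by
          ext j
          cases j <;> simp
        exact congrArg (fun φ => φ (map (algebraMap k0 ℂ) P)) h2
      have h1 : aeval e H = 0 := by
        rw [key E.K, aeval_map_algebraMap]
        exact h
      have h2 := hE2 H h1 p (hpne σ) hpi hpE0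
      have h3 := key ℂ p
      rw [aeval_eq_eval] at h3
      have h3' : eval p H = aeval (Sum.elim p (fun j => algebraMap ℂ ℂ (τ j)))
            (map (algebraMap k0 ℂ) P) := h3
      rw [h2, aeval_map_algebraMap] at h3'
      have h4 : (Sum.elim p (fun j => algebraMap ℂ ℂ (τ j))) = fun i => σ (u0 i) := by
        rw [hsum σ]
        rfl
      rw [h4] at h3'
      have h5 : aeval (fun i => σ (u0 i)) P = σ (aeval u0 P) := by
        have : σ.comp (aeval u0) = aeval (fun i => σ (u0 i)) := by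
          ext j; simp
        exact (congrArg (fun φ => φ P) this).symm
      rw [h5] at h3'
      have h6 := (map_eq_zero σ).mp h3'.symm
      exact (hu00 P).mp h6
  obtain ⟨ε, hε⟩ := exists_hom_adjoin u w hiff
  have hεu : ∀ i, ε (u0 i) = w i := fun i => hε i (huL i)
  have hεP : ∀ P : MvPolynomial ι k0,
      ε (aeval (fun i => u0 (Sum.inl i)) P) = aeval e (map (algebraMap k0 ℂ) P) := by
    intro P
    rw [aeval_map_algebraMap]
    have : ε.comp (aeval (fun i => u0 (Sum.inl i))) = aeval e := by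
      ext j; simp [hεu, hw]
    exact congrArg (fun φ => φ P) this
  -- elements of `L0`
  have hle : IntermediateField.adjoin k0 (Set.range f) ≤ L0 := by
    apply IntermediateField.adjoin.mono
    rintro _ ⟨i, rfl⟩
    exact ⟨Sum.inl i, rfl⟩
  have hle' : IntermediateField.adjoin k0 (Set.range g) ≤ L0 := by
    apply IntermediateField.adjoin.mono
    rintro _ ⟨i, rfl⟩
    exact ⟨Sum.inr i, rfl⟩
  let t0 : L0 := ⟨t, hle ht⟩
  let x0 : L0 := ⟨x, hle hx⟩
  let y0 : L0 := ⟨y, hle hy⟩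
  have rel0 : x0 ^ 3 + y0 ^ 3 + 1 + t0 ^ 9 = 0 := Subtype.ext rel
  have hind0 : AlgebraicIndependent k0 ![t0, x0] := by
    apply AlgebraicIndependent.of_comp L0.val
    have : (L0.val ∘ ![t0, x0] : Fin 2 → L) = ![t, x] := by
      funext i
      fin_cases i <;> rfl
    rw [this]
    exact hind
  have hindE : AlgebraicIndependent k0 ![ε t0, ε x0] := by
    have h1 := hind0.map' (f := ε) ε.injective
    have : (ε ∘ ![t0, x0] : Fin 2 → E.K) = ![ε t0, ε x0] := by
      funext i
      fin_cases i <;> rfl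
    rwa [this] at h1
  have relE : (ε x0) ^ 3 + (ε y0) ^ 3 + 1 + (ε t0) ^ 9 = 0 := by
    have := congrArg ε rel0
    simpa using this
  have hcz : CharZero k0 := by
    have := (algebraMap k0 ℂ).injective
    exact (algebraMap k0 ℂ).charZero
  obtain ⟨A, B, X', Y', hd, hEq, hXtr, hgen⟩ := hEell
  obtain ⟨c, hc⟩ := stmt_F1 k0 ℂ E.K A B X' Y' hd hEq hXtr hgen (ε t0) (ε x0) (ε y0) relE hindE
  -- (h)
  by_contra hnot
  let M₁ := IntermediateField.adjoin k0 (Set.range fun j => u0 (Sum.inr j))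
  have htr : Transcendental M₁ t0 := by
    intro halg
    apply hnot
    have hmem : ∀ z ∈ M₁, (z : L) ∈ IntermediateField.adjoin k0 (Set.range g) := by
      intro z hz
      have h1 : (z : L) ∈ (M₁.map L0.val) := ⟨z, hz, rfl⟩
      rw [IntermediateField.adjoin_map] at h1
      have h2 : (L0.val '' Set.range fun j => u0 (Sum.inr j)) = Set.range g := by
        ext z
        constructor
        · rintro ⟨_, ⟨j, rfl⟩, rfl⟩
          exact ⟨j, rfl⟩
        · rintro ⟨j, rfl⟩
          exact ⟨_, ⟨j, rfl⟩, rfl⟩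
      rwa [h2] at h1
    let φ : M₁ →+* IntermediateField.adjoin k0 (Set.range g) :=
      { toFun := fun z => ⟨((z : L0) : L), hmem z z.2⟩
        map_one' := rfl
        map_mul' := fun _ _ => rfl
        map_zero' := rfl
        map_add' := fun _ _ => rfl }
    have h3 := halg.ringHom_of_comp_eq (S := IntermediateField.adjoin k0 (Set.range g)) (B := L)
      φ (L0.val : L0 →+* L) φ.injective (by ext z; rfl)
    exact h3
  let _ : Algebra M₁ ℂ := (σ.comp M₁.val).toRingHom.toAlgebra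
  obtain ⟨k, hk⟩ := exists_embedding_ne htr c
  let σ' : L0 →ₐ[k0] ℂ := { k.toRingHom with
    commutes' := fun r => by
      have h1 : k (algebraMap M₁ L0 (algebraMap k0 M₁ r)) = algebraMap M₁ ℂ (algebraMap k0 M₁ r) :=
        k.commutes _
      change k (algebraMap k0 L0 r) = _
      have h2 : algebraMap k0 L0 r = algebraMap M₁ L0 (algebraMap k0 M₁ r) := rfl
      rw [h2, h1]
      change σ (algebraMap k0 L0 r) = _
      exact σ.commutes r }
  have hσ'g : ∀ j, σ' (u0 (Sum.inr j)) = τ j := by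
    intro j
    have hm : u0 (Sum.inr j) ∈ M₁ := IntermediateField.subset_adjoin _ _ ⟨j, rfl⟩
    have h1 : k (algebraMap M₁ L0 ⟨u0 (Sum.inr j), hm⟩) = algebraMap M₁ ℂ ⟨u0 (Sum.inr j), hm⟩ :=
      k.commutes _
    exact h1
  apply hk
  change σ' t0 = c
  -- (i)
  have hmem' := hpE σ' hσ'g
  have ht' : t ∈ IntermediateField.adjoin k0 (Set.range f) := ht
  rw [IntermediateField.mem_adjoin_range_iff] at ht'
  obtain ⟨P, Q, hPQ⟩ := ht'
  set f0 : ι → L0 := fun i => u0 (Sum.inl i) with hf0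
  have hf0P : ∀ P : MvPolynomial ι k0, ((aeval f0 P : L0) : L) = aeval f P := by
    intro P
    have h1 : (L0.val).comp (aeval f0) = aeval f := by
      ext j
      simp [hf0, u0, hu]
    exact congrArg (fun φ => φ P) h1
  have ht0 : t0 = aeval f0 P / aeval f0 Q := by
    apply Subtype.ext
    change t = ((aeval f0 P / aeval f0 Q : L0) : L)
    rw [hPQ]
    push_cast
    rw [hf0P, hf0P]
  have htne : t0 ≠ 0 := by
    have := hind0.ne_zero 0
    simpa using this
  have hQ0 : aeval f0 Q ≠ 0 := by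
    intro h0
    rw [h0, div_zero] at ht0
    exact htne ht0
  have h1 : ε (aeval f0 P) = algebraMap ℂ E.K c * ε (aeval f0 Q) := by
    rw [hc, ← map_mul]
    congr 1
    rw [ht0]
    field_simp
  rw [hεP, hεP] at h1
  have h2 : aeval e (map (algebraMap k0 ℂ) P - C c * map (algebraMap k0 ℂ) Q) = 0 := by
    rw [map_sub, map_mul, h1]
    simp
  have h3 := hE2 _ h2 _ (hpne σ') (by simp [hu0i]) hmem'
  rw [map_sub, map_mul, eval_C, sub_eq_zero, eval_map, eval_map, ← aeval_def, ← aeval_def] at h3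
  have h4 : ∀ P : MvPolynomial ι k0, aeval (fun i => σ' (u0 (Sum.inl i))) P = σ' (aeval f0 P) := by
    intro P
    have : σ'.comp (aeval f0) = aeval (fun i => σ' (u0 (Sum.inl i))) := by
      ext j; simp [hf0]
    exact (congrArg (fun φ => φ P) this).symm
  rw [h4, h4] at h3
  rw [ht0, map_div₀, h3]
  have h5 : σ' (aeval f0 Q) ≠ 0 := by
    intro h0
    exact hQ0 ((map_eq_zero σ').mp h0)
  field_simp

lemma gen_ratios {ι : Type} (X : ProjVar ι) (i₀ : ι) (h : X.f i₀ ≠ 0) :
    IntermediateField.adjoin ℂ (Set.range fun j => X.f j / X.f i₀) = ⊤ := by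
  rw [eq_top_iff, ← X.gen]
  apply IntermediateField.adjoin_le_iff.2
  rintro _ ⟨⟨i, j⟩, rfl⟩
  have hm : ∀ j, X.f j / X.f i₀ ∈
      IntermediateField.adjoin ℂ (Set.range fun j => X.f j / X.f i₀) :=
    fun j => IntermediateField.subset_adjoin _ _ ⟨j, rfl⟩
  have h1 : X.f i / X.f j = (X.f i / X.f i₀) / (X.f j / X.f i₀) := by
    rw [div_div_div_cancel_right₀ h]
  change X.f i / X.f j ∈ _
  rw [h1]
  exact div_mem (hm i) (hm j)

theorem E2_of_A4 (hA4 : Stmt_A4) : Stmt_E2 := by
  classical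
  intro ι _ X C hG t x y rel hind
  obtain ⟨d, G, hGf, hG0, hG1⟩ := hG
  obtain ⟨i₀, hi₀⟩ : ∃ i, X.f i ≠ 0 := Function.ne_iff.1 X.f_ne
  obtain ⟨j₀, hj₀⟩ : ∃ j, C.T.f j ≠ 0 := Function.ne_iff.1 C.T.f_ne
  set f : ι → C.L := fun i => C.φ (X.f i) with hf
  set g : C.κ → C.L := fun j => C.ψ (C.T.f j) with hg
  have hfi : f i₀ ≠ 0 := (map_ne_zero C.φ).mpr hi₀
  have hgj : g j₀ ≠ 0 := (map_ne_zero C.ψ).mpr hj₀
  set f' : ι → C.L := fun i => (f i₀)⁻¹ * f i with hf'
  set g' : C.κ → C.L := fun j => (g j₀)⁻¹ * g j with hg'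
  have hpairs : closedPairs f' g' = closedPairs f g :=
    closedPairs_scale f g (inv_ne_zero hfi) (inv_ne_zero hgj)
  have hpts : closedPts g' = closedPts C.T.f := by
    rw [closedPts_scale g (inv_ne_zero hgj)]
    have haev : ∀ F : MvPolynomial C.κ ℂ, aeval g F = C.ψ (aeval C.T.f F) := by
      intro F
      have : C.ψ.comp (aeval C.T.f) = aeval g := by
        ext j; simp [hg]
      exact (congrArg (fun φ => φ F) this).symm
    ext p
    constructor
    · intro h d F hF h0
      exact h d F hF (by rw [haev, h0, map_zero])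
    · intro h d F hF h0
      exact h d F hF (by rwa [haev, map_eq_zero] at h0)
  -- the coefficients
  set J : Ideal (MvPolynomial (ι ⊕ C.κ) ℂ) :=
    RingHom.ker (aeval (Sum.elim f' g') : MvPolynomial (ι ⊕ C.κ) ℂ →ₐ[ℂ] C.L) with hJ
  obtain ⟨s, hs⟩ : J.FG := IsNoetherian.noetherian J
  have hfrac : ∀ z : X.K, ∃ P Q : MvPolynomial ι ℂ, C.φ z = aeval f' P / aeval f' Q := by
    intro z
    have hz : z ∈ IntermediateField.adjoin ℂ (Set.range fun j => X.f j / X.f i₀) := by
      rw [gen_ratios X i₀ hi₀]; trivial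
    rw [IntermediateField.mem_adjoin_range_iff] at hz
    obtain ⟨P, Q, hPQ⟩ := hz
    refine ⟨P, Q, ?_⟩
    have h1 : ∀ P : MvPolynomial ι ℂ, C.φ (aeval (fun j => X.f j / X.f i₀) P) = aeval f' P := by
      intro P
      have : C.φ.comp (aeval (fun j => X.f j / X.f i₀)) = aeval f' := by
        ext j
        simp [hf', hf, div_eq_inv_mul]
      exact congrArg (fun φ => φ P) this
    rw [hPQ, map_div₀, h1, h1]
  obtain ⟨Pt, Qt, ht⟩ := hfrac t
  obtain ⟨Px, Qx, hx⟩ := hfrac x
  obtain ⟨Py, Qy, hy⟩ := hfrac y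
  set cs : Set ℂ := (⋃ F ∈ s, (F.coeffs : Set ℂ)) ∪ (G.coeffs : Set ℂ) ∪ (Pt.coeffs : Set ℂ) ∪
    (Qt.coeffs : Set ℂ) ∪ (Px.coeffs : Set ℂ) ∪ (Qx.coeffs : Set ℂ) ∪ (Py.coeffs : Set ℂ) ∪
    (Qy.coeffs : Set ℂ) with hcs
  have hcsfin : cs.Finite := by
    simp only [hcs, Set.finite_union, Finset.finite_toSet, and_true]
    exact Set.Finite.biUnion s.finite_toSet (fun F _ => F.coeffs.finite_toSet)
  set k0 := IntermediateField.adjoin ℚ cs with hk0
  have hcount : Countable k0 := countable_adjoin hcsfin.countable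
  have hcsk : ∀ c ∈ cs, c ∈ Set.range (algebraMap k0 ℂ) := fun c hc =>
    ⟨⟨c, IntermediateField.subset_adjoin _ _ hc⟩, rfl⟩
  have hst : IsScalarTower k0 ℂ C.L := inferInstance
  have hlift : ∀ {σ : Type} (P : MvPolynomial σ ℂ), (P.coeffs : Set ℂ) ⊆ cs →
      ∃ P0 : MvPolynomial σ k0, map (algebraMap k0 ℂ) P0 = P := by
    intro σ P hP
    have : P ∈ Set.range (map (algebraMap k0 ℂ)) := by
      rw [mem_range_map_iff_coeffs_subset]
      exact fun c hc => hcsk c (hP hc)
    exact this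
  obtain ⟨G0, hG0'⟩ := hlift G (by rw [hcs]; intro c hc; simp only [Set.mem_union]; tauto)
  obtain ⟨Pt0, hPt0⟩ := hlift Pt (by rw [hcs]; intro c hc; simp only [Set.mem_union]; tauto)
  obtain ⟨Qt0, hQt0⟩ := hlift Qt (by rw [hcs]; intro c hc; simp only [Set.mem_union]; tauto)
  obtain ⟨Px0, hPx0⟩ := hlift Px (by rw [hcs]; intro c hc; simp only [Set.mem_union]; tauto)
  obtain ⟨Qx0, hQx0⟩ := hlift Qx (by rw [hcs]; intro c hc; simp only [Set.mem_union]; tauto)
  obtain ⟨Py0, hPy0⟩ := hlift Py (by rw [hcs]; intro c hc; simp only [Set.mem_union]; tauto)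
  obtain ⟨Qy0, hQy0⟩ := hlift Qy (by rw [hcs]; intro c hc; simp only [Set.mem_union]; tauto)
  have hSlift : ∀ F ∈ s, ∃ P0 : MvPolynomial (ι ⊕ C.κ) k0, map (algebraMap k0 ℂ) P0 = F := by
    intro F hF
    apply hlift
    rw [hcs]
    intro c hc
    have : c ∈ ⋃ F ∈ s, (F.coeffs : Set ℂ) := by
      simp only [Set.mem_iUnion]
      exact ⟨F, hF, hc⟩
    simp only [Set.mem_union]
    tauto
  set S : Set (MvPolynomial (ι ⊕ C.κ) k0) := {P | map (algebraMap k0 ℂ) P ∈ s} with hSdef
  have hS : ∀ F : MvPolynomial (ι ⊕ C.κ) ℂ, aeval (Sum.elim f' g') F = 0 →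
      F ∈ Ideal.span (map (algebraMap k0 ℂ) '' S) := by
    intro F hF
    have h1 : F ∈ J := hF
    rw [← hs] at h1
    refine Ideal.span_mono ?_ h1
    intro F' hF'
    obtain ⟨P0, hP0⟩ := hSlift F' hF'
    refine ⟨P0, ?_, hP0⟩
    rw [hSdef]
    change map (algebraMap k0 ℂ) P0 ∈ s
    rw [hP0]
    exact hF'
  have hS' : ∀ F ∈ S, aeval (Sum.elim f' g') F = 0 := by
    intro F hF
    have h1 : map (algebraMap k0 ℂ) F ∈ J := by
      rw [← hs]
      exact Ideal.subset_span hF
    have h2 : aeval (Sum.elim f' g') (map (algebraMap k0 ℂ) F) = 0 := h1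
    rwa [aeval_map_algebraMap] at h2
  have hGg' : aeval g' G0 ≠ 0 := by
    rw [← aeval_map_algebraMap ℂ g' G0, hG0', hg', aeval_form_smul hGf]
    have haev : aeval g G = C.ψ (aeval C.T.f G) := by
      have : C.ψ.comp (aeval C.T.f) = aeval g := by
        ext j; simp [hg]
      exact (congrArg (fun φ => φ G) this).symm
    rw [haev]
    exact mul_ne_zero (pow_ne_zero _ (inv_ne_zero hgj)) ((map_ne_zero C.ψ).mpr hG0)
  have hmemK : ∀ {z : X.K} {P Q : MvPolynomial ι ℂ} {P0 Q0 : MvPolynomial ι k0},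
      C.φ z = aeval f' P / aeval f' Q → map (algebraMap k0 ℂ) P0 = P →
      map (algebraMap k0 ℂ) Q0 = Q → C.φ z ∈ IntermediateField.adjoin k0 (Set.range f') := by
    intro z P Q P0 Q0 hz hP hQ
    rw [IntermediateField.mem_adjoin_range_iff]
    refine ⟨P0, Q0, ?_⟩
    rw [hz, ← hP, ← hQ, aeval_map_algebraMap, aeval_map_algebraMap]
  have hmain := E2core hA4 f' g' i₀ j₀ (inv_mul_cancel₀ hfi) (inv_mul_cancel₀ hgj) S hS hS' G0 hGg'
    (by
      intro τ hτ hτm hτG
      rw [hpts] at hτm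
      have h1 : eval (Projectivization.mk ℂ τ hτ).rep G ≠ 0 := by
        obtain ⟨a, ha⟩ := Projectivization.exists_smul_eq_mk_rep ℂ τ hτ
        have hrep : (Projectivization.mk ℂ τ hτ).rep = fun i => (a : ℂ) * τ i := by
          rw [← ha]; rfl
        rw [hrep, eval_form_smul hGf]
        apply mul_ne_zero (pow_ne_zero _ a.ne_zero)
        rw [← hG0', eval_map, ← aeval_def]
        exact hτG
      obtain ⟨E, hE1, hE2⟩ := hG1 _ hτm h1
      refine ⟨E, ?_, hE2⟩
      rw [hE1, hpairs]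
      rfl)
    (C.φ t) (C.φ x) (C.φ y) (hmemK ht hPt0 hQt0) (hmemK hx hPx0 hQx0) (hmemK hy hPy0 hQy0)
    (by
      have := congrArg C.φ rel
      simpa using this)
    (by
      have h1 : AlgebraicIndependent ℂ (C.φ ∘ ![t, x]) := hind.map' (f := C.φ) C.φ.injective
      have h2 : (C.φ ∘ ![t, x] : Fin 2 → C.L) = ![C.φ t, C.φ x] := by
        funext i
        fin_cases i <;> rfl
      rw [h2] at h1
      exact h1.restrictScalars (algebraMap k0 ℂ).injective)
  -- transfer
  have hmemR : ∀ z ∈ IntermediateField.adjoin k0 (Set.range g'), z ∈ C.ψ.fieldRange := by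
    have hle : IntermediateField.adjoin k0 (Set.range g') ≤
        (C.ψ.fieldRange).restrictScalars k0 := by
      apply IntermediateField.adjoin_le_iff.2
      rintro _ ⟨j, rfl⟩
      change g' j ∈ C.ψ.fieldRange
      exact mul_mem (inv_mem ⟨_, rfl⟩) ⟨_, rfl⟩
    intro z hz
    exact hle hz
  let φ : IntermediateField.adjoin k0 (Set.range g') →+* C.ψ.fieldRange :=
    { toFun := fun z => ⟨(z : C.L), hmemR z z.2⟩
      map_one' := rfl
      map_mul' := fun _ _ => rfl
      map_zero' := rfl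
      map_add' := fun _ _ => rfl }
  exact hmain.ringHom_of_comp_eq φ (RingHom.id C.L) φ.injective (by ext z; rfl)

end Pool.Agent.MPad0563
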