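import Mathlib
import Pool.Agent.Work.MP_ad0563_ag_h67.E2
import Pool.Agent.Work.MP_ad0563_ag_helper72.Proper

/-!
# Block E2
-/

namespace Pool.Agent.MPad0563

theorem stmt_E2 : Stmt_E2 := E2_of_A4 stmt_A4

end Pool.Agent.MPad0563
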