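import Mathlib
import Pool.Agent.Work.MP_ad0563_ag.Interface

/-!
# Tools for blocks G8, G9
-/

open MvPolynomial

namespace Pool.Agent.MPad0563

section
variable {K : Type} [Field K]

lemma isUnitOf_iff (V : ValuationSubring K) (z : K) : IsUnitOf V z ↔ V.valuation z = 1 := by
  constructor
  · rintro ⟨h0, h1, h2⟩
    rw [← V.valuation_le_one_iff] at h1 h2
    apply le_antisymm h1
    rw [map_inv₀] at h2
    rwa [inv_le_one₀ (zero_lt_iff.mpr (by rw [Valuation.ne_zero_iff]; exact h0))] at h2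
  · intro h
    have h0 : z ≠ 0 := by
      rintro rfl
      simp at h
    refine ⟨h0, ?_, ?_⟩
    · rw [← V.valuation_le_one_iff]; exact h.le
    · rw [← V.valuation_le_one_iff, map_inv₀, h, inv_one]

lemma isSmallOf_iff (V : ValuationSubring K) (z : K) :
    IsSmallOf V z ↔ z ≠ 0 ∧ V.valuation z < 1 := by
  constructor
  · rintro ⟨h1, h2⟩
    have h0 : z ≠ 0 := by
      rintro rfl
      apply h2
      rw [inv_zero]
      exact V.zero_mem
    refine ⟨h0, ?_⟩
    rw [← V.valuation_le_one_iff] at h1 h2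
    refine lt_of_le_of_ne h1 ?_
    intro h3
    apply h2
    rw [map_inv₀, h3, inv_one]
  · rintro ⟨h0, h1⟩
    refine ⟨by rw [← V.valuation_le_one_iff]; exact h1.le, ?_⟩
    rw [← V.valuation_le_one_iff, map_inv₀]
    intro h2
    rw [inv_le_one₀ (zero_lt_iff.mpr (by rw [Valuation.ne_zero_iff]; exact h0))] at h2
    exact absurd h1 (not_lt.mpr h2)

lemma not_isUnitOf_iff (V : ValuationSubring K) {z : K} (hz : V.valuation z ≤ 1) :
    ¬ IsUnitOf V z ↔ V.valuation z < 1 := by
  rw [isUnitOf_iff]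
  exact ⟨fun h => lt_of_le_of_ne hz h, fun h => h.ne⟩

lemma val_le_of_pow {V : ValuationSubring K} {z : K} {n : ℕ} (hn : n ≠ 0)
    (h : V.valuation (z ^ n) ≤ 1) : V.valuation z ≤ 1 := by
  rw [map_pow] at h
  exact (pow_le_one_iff_of_nonneg zero_le hn).mp h

lemma val_lt_of_pow {V : ValuationSubring K} {z : K} {n : ℕ} 
    (h : V.valuation (z ^ n) < 1) : V.valuation z < 1 := by
  by_contra h2
  push Not at h2
  rw [map_pow] at h
  exact absurd h (not_lt.mpr (one_le_pow₀ h2))

variable [Algebra ℂ K]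

/-- uniformisers -/
lemma exists_unif_val {n : ℕ} {V : ValuationSubring K} (hV : IsDivisorial n V) :
    ∃ π : K, IsSmallOf V π ∧ ∀ z, V.valuation z < 1 → V.valuation (z / π) ≤ 1 := by
  have hd := hV.dvr
  obtain ⟨π, hπ⟩ := IsDiscreteValuationRing.exists_irreducible V
  have hπ0 : (π : K) ≠ 0 := by
    intro h0
    exact hπ.ne_zero (Subtype.ext h0)
  have hmax := hπ.maximalIdeal_eq
  have hsm : V.valuation (π : K) < 1 := by
    rw [← V.valuation_lt_one_iff, hmax]
    exact Ideal.mem_span_singleton_self π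
  refine ⟨π, (isSmallOf_iff V _).mpr ⟨hπ0, hsm⟩, ?_⟩
  intro z hz
  have hzV : z ∈ V := by rw [← V.valuation_le_one_iff]; exact hz.le
  have h1 : (⟨z, hzV⟩ : V) ∈ IsLocalRing.maximalIdeal V := by
    rw [V.valuation_lt_one_iff]; exact hz
  rw [hmax, Ideal.mem_span_singleton] at h1
  obtain ⟨w, hw⟩ := h1
  have h2 : z = π * w := congrArg Subtype.val hw
  have h3 : z / π = w := by rw [h2]; field_simp
  rw [h3]
  exact V.valuation_le_one w

/-- `u` is a quotient of elements of `B` with a denominator which is a unit of `V` -/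
def FracV (V : ValuationSubring K) (B : Subalgebra ℂ K) (u : K) : Prop :=
  ∃ a ∈ B, ∃ b ∈ B, b ≠ 0 ∧ b⁻¹ ∈ V ∧ u = a / b

lemma FracV.of_mem {V : ValuationSubring K} {B : Subalgebra ℂ K} {u : K} (hu : u ∈ B) :
    FracV V B u := ⟨u, hu, 1, one_mem _, one_ne_zero, by rw [inv_one]; exact V.one_mem, by simp⟩

lemma FracV.add {V : ValuationSubring K} {B : Subalgebra ℂ K} {u w : K} (hu : FracV V B u)
    (hw : FracV V B w) : FracV V B (u + w) := by
  obtain ⟨a, ha, b, hb, hb0, hbV, rfl⟩ := hu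
  obtain ⟨c, hc, d, hd, hd0, hdV, rfl⟩ := hw
  refine ⟨a * d + b * c, add_mem (mul_mem ha hd) (mul_mem hb hc), b * d, mul_mem hb hd,
    mul_ne_zero hb0 hd0, ?_, ?_⟩
  · rw [mul_inv]; exact mul_mem hbV hdV
  · rw [div_add_div _ _ hb0 hd0]

lemma FracV.mul {V : ValuationSubring K} {B : Subalgebra ℂ K} {u w : K} (hu : FracV V B u)
    (hw : FracV V B w) : FracV V B (u * w) := by
  obtain ⟨a, ha, b, hb, hb0, hbV, rfl⟩ := hu
  obtain ⟨c, hc, d, hd, hd0, hdV, rfl⟩ := hw
  refine ⟨a * c, mul_mem ha hc, b * d, mul_mem hb hd, mul_ne_zero hb0 hd0, ?_, ?_⟩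
  · rw [mul_inv]; exact mul_mem hbV hdV
  · rw [div_mul_div_comm]

lemma fracV_adjoin {V : ValuationSubring K} {B : Subalgebra ℂ K} {S : Set K}
    (h : ∀ s ∈ S, FracV V B s) : ∀ u ∈ Algebra.adjoin ℂ S, FracV V B u := by
  intro u hu
  induction hu using Algebra.adjoin_induction with
  | mem x hx => exact h x hx
  | algebraMap c => exact FracV.of_mem (Subalgebra.algebraMap_mem _ c)
  | add x y _ _ hx hy => exact hx.add hy
  | mul x y _ _ hx hy => exact hx.mul hy

/-- transfer of the terminal condition from `B` to `A` -/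
lemma transfer (hV3 : Stmt_V3) (hV5 : Stmt_V5) {V : ValuationSubring K} {A B : Subalgebra ℂ K}
    (hAB : ∀ u ∈ A, FracV V B u) (hBA : ∀ u ∈ B, FracV V A u) {ω : ⋀[K]^4 (Ω[K⁄ℂ])}
    (h1 : (IsLocOf V B → OrdZero V 4 1 1 ω) ∧ (¬ IsLocOf V B → OrdPos V 4 1 1 ω)) {c h : K}
    (hc : c ≠ 0) (hu : V.valuation (h * c ^ 3) = 1) {ω' : ⋀[K]^4 (Ω[K⁄ℂ])} (hω : ω' = c • ω) :
    (IsLocOf V A → OrdZero V 4 3 h ω') ∧ (¬ IsLocOf V A → OrdPos V 4 3 h ω') := by
  rw [← isUnitOf_iff] at hu
  obtain ⟨h2, h3⟩ := hV3 K 4 3 V h c ω hc hu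
  rw [hω]
  constructor
  · intro hA
    exact h2 (h1.1 (hV5 K A B V hAB hA))
  · intro hA
    exact h3 (by norm_num) (h1.2 (fun hB => hA (hV5 K B A V hBA hB)))

lemma alg_le_val {V : ValuationSubring K} (hV : ∀ c : ℂ, algebraMap ℂ K c ∈ V) {S : Set K}
    (h : ∀ s ∈ S, V.valuation s ≤ 1) : ∀ u ∈ Algebra.adjoin ℂ S, u ∈ V := by
  intro u hu
  induction hu using Algebra.adjoin_induction with
  | mem x hx => rw [← V.valuation_le_one_iff]; exact h x hx
  | algebraMap c => exact hV c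
  | add x y _ _ hx hy => exact add_mem hx hy
  | mul x y _ _ hx hy => exact mul_mem hx hy

lemma val_c {V : ValuationSubring K} (hV : ∀ c : ℂ, algebraMap ℂ K c ∈ V) {c : ℂ} (hc : c ≠ 0) :
    V.valuation (algebraMap ℂ K c) = 1 := by
  rw [← isUnitOf_iff]
  refine ⟨by simpa using hc, hV c, ?_⟩
  rw [← map_inv₀]
  exact hV _

/-- elements congruent to polynomials in `w` modulo the maximal ideal form a subalgebra -/
lemma congr_poly {V : ValuationSubring K} (hV : ∀ c : ℂ, algebraMap ℂ K c ∈ V) {w : K}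
    (hw : w ∈ V) {S : Set K}
    (h : ∀ s ∈ S, ∃ P : Polynomial ℂ, V.valuation (s - Polynomial.aeval w P) < 1) :
    ∀ u ∈ Algebra.adjoin ℂ S, ∃ P : Polynomial ℂ, V.valuation (u - Polynomial.aeval w P) < 1 := by
  have hP : ∀ P : Polynomial ℂ, V.valuation (Polynomial.aeval w P) ≤ 1 := by
    intro P
    rw [V.valuation_le_one_iff]
    induction P using Polynomial.induction_on' with
    | add p q hp hq => rw [map_add]; exact add_mem hp hq
    | monomial n a =>
      rw [Polynomial.aeval_monomial]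
      exact mul_mem (hV a) (pow_mem hw n)
  intro u hu
  induction hu using Algebra.adjoin_induction with
  | mem x hx => exact h x hx
  | algebraMap c =>
    refine ⟨Polynomial.C c, ?_⟩
    rw [Polynomial.aeval_C, sub_self, map_zero]
    exact zero_lt_one
  | add x y _ _ hx hy =>
    obtain ⟨P, h1⟩ := hx
    obtain ⟨Q, h2⟩ := hy
    refine ⟨P + Q, ?_⟩
    rw [map_add, show x + y - (Polynomial.aeval w P + Polynomial.aeval w Q) =
      (x - Polynomial.aeval w P) + (y - Polynomial.aeval w Q) by ring]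
    exact lt_of_le_of_lt (V.valuation.map_add _ _) (max_lt h1 h2)
  | mul x y _ _ hx hy =>
    obtain ⟨P, h1⟩ := hx
    obtain ⟨Q, h2⟩ := hy
    refine ⟨P * Q, ?_⟩
    have hy1 : V.valuation y ≤ 1 := by
      have : y = (y - Polynomial.aeval w Q) + Polynomial.aeval w Q := by ring
      rw [this]
      exact (V.valuation.map_add _ _).trans (max_le h2.le (hP Q))
    rw [map_mul, show x * y - Polynomial.aeval w P * Polynomial.aeval w Q =
      (x - Polynomial.aeval w P) * y + Polynomial.aeval w P * (y - Polynomial.aeval w Q) by ring]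
    refine lt_of_le_of_lt (V.valuation.map_add _ _) (max_lt ?_ ?_)
    · rw [map_mul]
      calc _ ≤ V.valuation (x - Polynomial.aeval w P) * 1 := by gcongr
        _ < 1 := by rw [mul_one]; exact h1
    · rw [map_mul]
      calc _ ≤ 1 * V.valuation (y - Polynomial.aeval w Q) := by gcongr; exact hP P
        _ < 1 := by rw [one_mul]; exact h2

/-- `η³ ≡ -1` implies that `η` is congruent to a constant -/
lemma congr_root {V : ValuationSubring K} (hV : ∀ c : ℂ, algebraMap ℂ K c ∈ V) {η : K}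
    (h : V.valuation (η ^ 3 + 1) < 1) : ∃ c : ℂ, V.valuation (η - algebraMap ℂ K c) < 1 := by
  obtain ⟨ζ, hζ⟩ := IsAlgClosed.exists_root (Polynomial.X ^ 2 - Polynomial.X + 1 : Polynomial ℂ) (by
    have : (Polynomial.X ^ 2 - Polynomial.X + 1 : Polynomial ℂ).degree = 2 := by
      compute_degree!
    rw [this]; norm_num)
  have hζ' : ζ ^ 2 - ζ + 1 = 0 := by simpa [Polynomial.IsRoot] using hζ
  have hζK : (algebraMap ℂ K ζ) ^ 2 - algebraMap ℂ K ζ + 1 = 0 := by
    have := congrArg (algebraMap ℂ K) hζ'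
    simpa using this
  have hfac : η ^ 3 + 1 = (η - algebraMap ℂ K (-1)) * ((η - algebraMap ℂ K ζ) *
      (η - algebraMap ℂ K (1 - ζ))) := by
    simp only [map_neg, map_one, map_sub]
    linear_combination (η + 1) * hζK
  rw [hfac, map_mul, map_mul] at h
  by_contra hnot
  push Not at hnot
  have := one_le_mul (hnot (-1)) (one_le_mul (hnot ζ) (hnot (1 - ζ)))
  exact absurd h (not_lt.mpr this)

end

end Pool.Agent.MPad0563
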