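import Mathlib
import Pool.Agent.Work.MP_ad0563_ag_h67.Val
import Pool.Agent.Work.MP_ad0563_ag.BlockA

/-!
# Blocks G8, G9: the terminal quotient singularities of `Y`
-/

open MvPolynomial

namespace Pool.Agent.MPad0563

section
variable {K : Type} [Field K] [Algebra ℂ K]

/-- the values of the coordinates -/
lemma val_zzz {V : ValuationSubring K} {z : Fin 4 → K} {x : K} (hx : x ≠ 0)
    (h : ∀ i, V.valuation (z i ^ 3 / x) < 1) (i j k : Fin 4) :
    V.valuation (z i * z j * z k / x) < 1 := by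
  apply val_lt_of_pow (n := 3)
  have : (z i * z j * z k / x) ^ 3 = (z i ^ 3 / x) * ((z j ^ 3 / x) * (z k ^ 3 / x)) := by
    field_simp
  rw [this, map_mul, map_mul]
  exact mul_lt_one_of_nonneg_of_lt_one_left zero_le (h i)
    (mul_lt_one_of_nonneg_of_lt_one_left zero_le (h j) (h k).le).le

/-- the third power of `y / x` -/
lemma eta_cube {t x y : K} (rel : x ^ 3 + y ^ 3 + 1 + t ^ 9 = 0) (hx : x ≠ 0) :
    (y / x) ^ 3 + 1 = - ((1 / x) ^ 3 + (t ^ 3 / x) ^ 3) := by
  field_simp
  linear_combination rel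

lemma eta_small {V : ValuationSubring K} {t x y : K} (rel : x ^ 3 + y ^ 3 + 1 + t ^ 9 = 0)
    (hx : x ≠ 0) (h1 : V.valuation (1 / x) < 1) (h2 : V.valuation (t ^ 3 / x) < 1) :
    V.valuation ((y / x) ^ 3 + 1) < 1 := by
  rw [eta_cube rel hx, Valuation.map_neg]
  refine lt_of_le_of_lt (V.valuation.map_add _ _) (max_lt ?_ ?_)
  · rw [map_pow]; exact pow_lt_one₀ zero_le h1 (by norm_num)
  · rw [map_pow]; exact pow_lt_one₀ zero_le h2 (by norm_num)

lemma eta_unit {V : ValuationSubring K} {t x y : K} (rel : x ^ 3 + y ^ 3 + 1 + t ^ 9 = 0)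
    (hx : x ≠ 0) (h1 : V.valuation (1 / x) < 1) (h2 : V.valuation (t ^ 3 / x) < 1) :
    V.valuation (y / x) = 1 := by
  have h3 := eta_small rel hx h1 h2
  have h4 : V.valuation ((y / x) ^ 3) = 1 := by
    have : (y / x) ^ 3 = -(1 - ((y / x) ^ 3 + 1)) := by ring
    rw [this, Valuation.map_neg]
    exact V.valuation.map_one_sub_of_lt h3
  rw [map_pow] at h4
  exact (pow_eq_one_iff_of_nonneg zero_le (by norm_num)).mp h4

/-- quotients over an algebra `B` in which `z i / p`, `x / p³`, `y / p³` lie -/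
lemma fracV_R0 {V : ValuationSubring K} {B : Subalgebra ℂ K} {z : Fin 4 → K} {x y p : K}
    (hp : p ≠ 0) (hx : x ≠ 0) (hz : ∀ i, z i / p ∈ B) (hxB : x / p ^ 3 ∈ B)
    (hxV : p ^ 3 / x ∈ V) (hyB : y / p ^ 3 ∈ B) :
    ∀ s ∈ Set.range (fun j => cub z x y j / x), FracV V B s := by
  have hinv : (x / p ^ 3)⁻¹ ∈ V := by rw [inv_div]; exact hxV
  have h0 : x / p ^ 3 ≠ 0 := div_ne_zero hx (pow_ne_zero 3 hp)
  rintro _ ⟨j | j, rfl⟩
  · obtain ⟨i, j, k⟩ := j
    refine ⟨(z i / p) * (z j / p) * (z k / p), mul_mem (mul_mem (hz i) (hz j)) (hz k), x / p ^ 3,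
      hxB, h0, hinv, ?_⟩
    simp only [cub, Sum.elim_inl]
    field_simp
  · fin_cases j
    · refine ⟨1, one_mem _, 1, one_mem _, one_ne_zero, by rw [inv_one]; exact V.one_mem, ?_⟩
      simp [cub, hx]
    · refine ⟨y / p ^ 3, hyB, x / p ^ 3, hxB, h0, hinv, ?_⟩
      simp only [cub, Sum.elim_inr]
      change y / x = _
      field_simp

section
variable {t x y a b : K}

lemma R0_mem_zzz (i j k : Fin 4) : ![1, t, a, b] i * ![1, t, a, b] j * ![1, t, a, b] k / x ∈
    algR0 t x y a b := Algebra.subset_adjoin ⟨Sum.inl (i, j, k), rfl⟩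

lemma R0_mem_y : y / x ∈ algR0 t x y a b := Algebra.subset_adjoin ⟨Sum.inr 1, rfl⟩

/-- elements which are quotients over `algR0` with denominator `p³ / x` -/
lemma R0_frac {V : ValuationSubring K} (l : Fin 4) (hx : x ≠ 0) (hp : ![1, t, a, b] l ≠ 0)
    (hV : x / ![1, t, a, b] l ^ 3 ∈ V) :
    (∀ i, FracV V (algR0 t x y a b) (![1, t, a, b] i / ![1, t, a, b] l)) ∧
      FracV V (algR0 t x y a b) (x / ![1, t, a, b] l ^ 3) ∧
      FracV V (algR0 t x y a b) (y / ![1, t, a, b] l ^ 3) ∧
      FracV V (algR0 t x y a b) (![1, t, a, b] l ^ 3 / x) := by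
  set p := ![1, t, a, b] l with hpdef
  have hden : p * p * p / x ∈ algR0 t x y a b := R0_mem_zzz l l l
  have hden0 : p * p * p / x ≠ 0 := div_ne_zero (mul_ne_zero (mul_ne_zero hp hp) hp) hx
  have hinv : (p * p * p / x)⁻¹ ∈ V := by
    have : (p * p * p / x)⁻¹ = x / p ^ 3 := by rw [inv_div]; ring
    rw [this]; exact hV
  refine ⟨?_, ?_, ?_, ?_⟩
  · intro i
    refine ⟨![1, t, a, b] i * p * p / x, R0_mem_zzz i l l, p * p * p / x, hden, hden0, hinv, ?_⟩
    field_simp
  · exact ⟨1, one_mem _, p * p * p / x, hden, hden0, hinv, by field_simp⟩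
  · exact ⟨y / x, R0_mem_y, p * p * p / x, hden, hden0, hinv, by field_simp⟩
  · apply FracV.of_mem
    have : p ^ 3 / x = p * p * p / x := by ring
    rw [this]; exact hden

end

theorem G8_of (hN2 : Stmt_N2) (hSym : Stmt_Sym) (hG1 : Stmt_G1) (hG2 : Stmt_G2) (hG4 : Stmt_G4)
    (hV1 : Stmt_V1) (hV3 : Stmt_V3) (hV5 : Stmt_V5) (hV6 : Stmt_V6) : Stmt_G8 := by
  intro K _ _ t x y a b hD R χ hloc
  refine ⟨stmt_A9 K R _ χ hloc (hN2 K t x y a b hD).2.2.2.1, ?_⟩
  have hind := (hSym K t x y a b hD).2.2.2.2.1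
  have ht0 : t ≠ 0 := by simpa using hind.ne_zero 0
  have hx0 : x ≠ 0 := by simpa using hind.ne_zero 1
  have ha0 : a ≠ 0 := by simpa using hind.ne_zero 2
  have hb0 : b ≠ 0 := by simpa using hind.ne_zero 3
  have hind' := (hSym K t x y a b hD).2.2.2.2.2
  have hy0 : y ≠ 0 := by simpa using hind'.ne_zero 1
  have hG1D := hG1 K t x y a b hD
  refine ⟨3, 1 / x, omegaY t x y a b, by norm_num, one_div_ne_zero hx0, hG1D.1, ?_⟩
  intro V hV hRV
  obtain ⟨hAV, hiff⟩ := stmt_V4 K R _ χ V hloc hRV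
  rw [hiff]
  have hmem : ∀ {z : K}, z ∈ algR0 t x y a b → V.valuation z ≤ 1 := fun hz => by
    rw [V.valuation_le_one_iff]; exact hAV _ hz
  have hz3 : ∀ l : Fin 4, V.valuation (![1, t, a, b] l ^ 3 / x) ≤ 1 := by
    intro l
    have h1 : ![1, t, a, b] l ^ 3 / x ∈ algR0 t x y a b := by
      have : ![1, t, a, b] l ^ 3 / x = ![1, t, a, b] l * ![1, t, a, b] l * ![1, t, a, b] l / x := by
        ring
      rw [this]; exact R0_mem_zzz l l l
    exact hmem h1
  have hη : V.valuation (y / x) ≤ 1 := hmem R0_mem_y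
  -- bounds when `p³ / x` is a unit
  have hbound : ∀ l : Fin 4, ![1, t, a, b] l ≠ 0 → V.valuation (![1, t, a, b] l ^ 3 / x) = 1 →
      (∀ i, V.valuation (![1, t, a, b] i / ![1, t, a, b] l) ≤ 1) ∧
        V.valuation (x / ![1, t, a, b] l ^ 3) = 1 ∧
        V.valuation (y / ![1, t, a, b] l ^ 3) ≤ 1 := by
    intro l hl0 hl
    set p := ![1, t, a, b] l with hp
    have h2 : V.valuation (x / p ^ 3) = 1 := by
      rw [← inv_div, map_inv₀, hl, inv_one]
    refine ⟨?_, h2, ?_⟩
    · intro i
      apply val_le_of_pow (n := 3) (by norm_num)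
      have : (![1, t, a, b] i / p) ^ 3 = (![1, t, a, b] i ^ 3 / x) * (x / p ^ 3) := by
        field_simp
      rw [this, map_mul, h2, mul_one]
      exact hz3 i
    · have : y / p ^ 3 = (y / x) * (x / p ^ 3) := by field_simp
      rw [this, map_mul, h2, mul_one]
      exact hη
  by_cases h0 : V.valuation ((1 : K) ^ 3 / x) = 1
  · -- case (i)
    obtain ⟨b1, b2, b3⟩ := hbound 0 one_ne_zero h0
    have hxV : x / (1 : K) ^ 3 ∈ V := by rw [← V.valuation_le_one_iff]; exact b2.le
    obtain ⟨f1, f2, f3, f4⟩ := R0_frac (t := t) (x := x) (y := y) (a := a) (b := b) (V := V) 0 hx0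
      one_ne_zero hxV
    have hT : ∀ z ∈ algT1 t x y a b, z ∈ V := by
      apply alg_le_val hV.const
      rintro s (rfl | rfl | rfl | rfl | rfl)
      · simpa using b1 1
      · simpa using b2.le
      · simpa using b3
      · simpa using b1 2
      · simpa using b1 3
    have mt : t ∈ algT1 t x y a b := Algebra.subset_adjoin (by simp)
    have mx : x ∈ algT1 t x y a b := Algebra.subset_adjoin (by simp)
    have my : y ∈ algT1 t x y a b := Algebra.subset_adjoin (by simp)
    have ma : a ∈ algT1 t x y a b := Algebra.subset_adjoin (by simp)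
    have mb : b ∈ algT1 t x y a b := Algebra.subset_adjoin (by simp)
    have hA : ∀ u ∈ algR0 t x y a b, FracV V (algT1 t x y a b) u := by
      apply fracV_adjoin
      apply fracV_R0 (p := 1) one_ne_zero hx0
      · intro i
        rw [div_one]
        fin_cases i
        · exact one_mem _
        · exact mt
        · exact ma
        · exact mb
      · simpa using mx
      · rw [← V.valuation_le_one_iff]; exact h0.le
      · simpa using my
    have hB : ∀ u ∈ algT1 t x y a b, FracV V (algR0 t x y a b) u := by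
      apply fracV_adjoin
      rintro s (rfl | rfl | rfl | rfl | rfl)
      · simpa using f1 1
      · simpa using f2
      · simpa using f3
      · simpa using f1 2
      · simpa using f1 3
    exact transfer hV3 hV5 hA hB (hG2 K t x y a b hD V hV hT) (c := 1) (h := 1 / x) one_ne_zero
      (by simpa using h0) (by rw [one_smul])
  by_cases h1 : V.valuation (t ^ 3 / x) = 1
  · -- case (ii)
    obtain ⟨b1, b2, b3⟩ := hbound 1 ht0 h1
    change ∀ i, V.valuation (![1, t, a, b] i / t) ≤ 1 at b1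
    change V.valuation (x / t ^ 3) = 1 at b2
    change V.valuation (y / t ^ 3) ≤ 1 at b3
    have hxV : x / t ^ 3 ∈ V := by rw [← V.valuation_le_one_iff]; exact b2.le
    obtain ⟨f1, f2, f3, f4⟩ := R0_frac (t := t) (x := x) (y := y) (a := a) (b := b) (V := V) 1 hx0
      ht0 hxV
    change ∀ i, FracV V (algR0 t x y a b) (![1, t, a, b] i / t) at f1
    change FracV V (algR0 t x y a b) (x / t ^ 3) at f2
    change FracV V (algR0 t x y a b) (y / t ^ 3) at f3
    have hD' := (hSym K t x y a b hD).2.2.2.1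
    set B := algT1 t⁻¹ (x / t ^ 3) (y / t ^ 3) (a / t) (b / t) with hB
    have hT : ∀ z ∈ B, z ∈ V := by
      apply alg_le_val hV.const
      rintro s (rfl | rfl | rfl | rfl | rfl)
      · simpa using b1 0
      · exact b2.le
      · exact b3
      · exact b1 2
      · exact b1 3
    have hA : ∀ u ∈ algR0 t x y a b, FracV V B u := by
      apply fracV_adjoin
      apply fracV_R0 (p := t) ht0 hx0
      · intro i
        fin_cases i
        · exact Algebra.subset_adjoin (by simp)
        · change t / t ∈ B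
          rw [div_self ht0]
          exact one_mem _
        · exact Algebra.subset_adjoin (by simp)
        · exact Algebra.subset_adjoin (by simp)
      · exact Algebra.subset_adjoin (by simp)
      · rw [← V.valuation_le_one_iff]; exact h1.le
      · exact Algebra.subset_adjoin (by simp)
    have hB' : ∀ u ∈ B, FracV V (algR0 t x y a b) u := by
      apply fracV_adjoin
      rintro s (rfl | rfl | rfl | rfl | rfl)
      · simpa using f1 0
      · exact f2
      · exact f3
      · exact f1 2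
      · exact f1 3
    refine transfer hV3 hV5 hA hB' (hG2 K _ _ _ _ _ hD' V hV hT) (c := -t) (h := 1 / x)
      (neg_ne_zero.mpr ht0) ?_ ?_
    · have : 1 / x * (-t) ^ 3 = -(t ^ 3 / x) := by ring
      rw [this, Valuation.map_neg]
      exact h1
    · rw [hG1D.2.2.2.2.1, smul_smul]
      have : -t * -t⁻¹ = 1 := by field_simp
      rw [this, one_smul]
  -- `eta` is a unit
  have hs0 : V.valuation (1 / x) < 1 := by
    have := lt_of_le_of_ne (hz3 0) (by simpa using h0)
    simpa using this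
  have hs1 : V.valuation (t ^ 3 / x) < 1 := lt_of_le_of_ne (hz3 1) h1
  have hηu := eta_unit hD.rel hx0 hs0 hs1
  by_cases h2 : V.valuation (a ^ 3 / x) = 1
  · -- case (iii)
    obtain ⟨b1, b2, b3⟩ := hbound 2 ha0 h2
    change ∀ i, V.valuation (![1, t, a, b] i / a) ≤ 1 at b1
    change V.valuation (x / a ^ 3) = 1 at b2
    have hxV : x / a ^ 3 ∈ V := by rw [← V.valuation_le_one_iff]; exact b2.le
    obtain ⟨f1, f2, f3, f4⟩ := R0_frac (t := t) (x := x) (y := y) (a := a) (b := b) (V := V) 2 hx0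
      ha0 hxV
    change ∀ i, FracV V (algR0 t x y a b) (![1, t, a, b] i / a) at f1
    change FracV V (algR0 t x y a b) (x / a ^ 3) at f2
    change FracV V (algR0 t x y a b) (a ^ 3 / x) at f4
    set B := algT3 t x y a b with hB
    have hT : ∀ z ∈ B, z ∈ V := by
      apply alg_le_val hV.const
      rintro s (rfl | rfl | rfl | rfl | rfl | rfl)
      · simpa using b1 0
      · exact b1 1
      · exact b1 3
      · exact h2.le
      · exact b2.le
      · exact hη
    have m1 : x / a ^ 3 ∈ B := Algebra.subset_adjoin (by simp)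
    have m2 : y / x ∈ B := Algebra.subset_adjoin (by simp)
    have hA : ∀ u ∈ algR0 t x y a b, FracV V B u := by
      apply fracV_adjoin
      apply fracV_R0 (p := a) ha0 hx0
      · intro i
        fin_cases i
        · change 1 / a ∈ B
          rw [one_div]
          exact Algebra.subset_adjoin (by simp)
        · exact Algebra.subset_adjoin (by simp)
        · change a / a ∈ B
          rw [div_self ha0]
          exact one_mem _
        · exact Algebra.subset_adjoin (by simp)
      · exact m1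
      · rw [← V.valuation_le_one_iff]; exact h2.le
      · have : y / a ^ 3 = (y / x) * (x / a ^ 3) := by field_simp
        rw [this]
        exact mul_mem m2 m1
    have hB' : ∀ u ∈ B, FracV V (algR0 t x y a b) u := by
      apply fracV_adjoin
      rintro s (rfl | rfl | rfl | rfl | rfl | rfl)
      · simpa using f1 0
      · exact f1 1
      · exact f1 3
      · exact f4
      · exact f2
      · exact FracV.of_mem R0_mem_y
    refine transfer hV3 hV5 hA hB' (hG4 K _ _ _ _ _ hD V hV hT ((isUnitOf_iff V _).mpr hηu))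
      (c := a) (h := 1 / x) ha0 ?_ ?_
    · have : 1 / x * a ^ 3 = a ^ 3 / x := by ring
      rw [this]
      exact h2
    · rw [smul_smul, mul_inv_cancel₀ ha0, one_smul]
  by_cases h3 : V.valuation (b ^ 3 / x) = 1
  · -- case (iv)
    obtain ⟨b1, b2, b3⟩ := hbound 3 hb0 h3
    change ∀ i, V.valuation (![1, t, a, b] i / b) ≤ 1 at b1
    change V.valuation (x / b ^ 3) = 1 at b2
    have hxV : x / b ^ 3 ∈ V := by rw [← V.valuation_le_one_iff]; exact b2.le
    obtain ⟨f1, f2, f3, f4⟩ := R0_frac (t := t) (x := x) (y := y) (a := a) (b := b) (V := V) 3 hx0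
      hb0 hxV
    change ∀ i, FracV V (algR0 t x y a b) (![1, t, a, b] i / b) at f1
    change FracV V (algR0 t x y a b) (x / b ^ 3) at f2
    change FracV V (algR0 t x y a b) (b ^ 3 / x) at f4
    have hD' := (hSym K t x y a b hD).2.1
    set B := algT3 t x y b a with hB
    have hT : ∀ z ∈ B, z ∈ V := by
      apply alg_le_val hV.const
      rintro s (rfl | rfl | rfl | rfl | rfl | rfl)
      · simpa using b1 0
      · exact b1 1
      · exact b1 2
      · exact h3.le
      · exact b2.le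
      · exact hη
    have m1 : x / b ^ 3 ∈ B := Algebra.subset_adjoin (by simp)
    have m2 : y / x ∈ B := Algebra.subset_adjoin (by simp)
    have hA : ∀ u ∈ algR0 t x y a b, FracV V B u := by
      apply fracV_adjoin
      apply fracV_R0 (p := b) hb0 hx0
      · intro i
        fin_cases i
        · change 1 / b ∈ B
          rw [one_div]
          exact Algebra.subset_adjoin (by simp)
        · exact Algebra.subset_adjoin (by simp)
        · exact Algebra.subset_adjoin (by simp)
        · change b / b ∈ B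
          rw [div_self hb0]
          exact one_mem _
      · exact m1
      · rw [← V.valuation_le_one_iff]; exact h3.le
      · have : y / b ^ 3 = (y / x) * (x / b ^ 3) := by field_simp
        rw [this]
        exact mul_mem m2 m1
    have hB' : ∀ u ∈ B, FracV V (algR0 t x y a b) u := by
      apply fracV_adjoin
      rintro s (rfl | rfl | rfl | rfl | rfl | rfl)
      · simpa using f1 0
      · exact f1 1
      · exact f1 2
      · exact f4
      · exact f2
      · exact FracV.of_mem R0_mem_y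
    refine transfer hV3 hV5 hA hB' (hG4 K _ _ _ _ _ hD' V hV hT ((isUnitOf_iff V _).mpr hηu))
      (c := -b) (h := 1 / x) (neg_ne_zero.mpr hb0) ?_ ?_
    · have : 1 / x * (-b) ^ 3 = -(b ^ 3 / x) := by ring
      rw [this, Valuation.map_neg]
      exact h3
    · rw [hG1D.2.2.1, smul_neg, smul_neg, neg_smul, neg_neg, smul_smul, mul_inv_cancel₀ hb0,
        one_smul]
  -- case (v)
  have hs2 : V.valuation (a ^ 3 / x) < 1 := lt_of_le_of_ne (hz3 2) h2
  have hs3 : V.valuation (b ^ 3 / x) < 1 := lt_of_le_of_ne (hz3 3) h3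
  have hall : ∀ i, V.valuation (![1, t, a, b] i ^ 3 / x) < 1 := by
    intro i
    fin_cases i
    · change V.valuation ((1 : K) ^ 3 / x) < 1
      rw [one_pow]; exact hs0
    · exact hs1
    · exact hs2
    · exact hs3
  have hnl : ¬ IsLocOf V (algR0 t x y a b) := by
    apply hV6 K 4 V hV (by norm_num) (algR0 t x y a b) 0 V.zero_mem hAV
    intro u hu
    have h4 : ∀ s ∈ Set.range (fun j => cub ![1, t, a, b] x y j / x),
        ∃ P : Polynomial ℂ, V.valuation (s - Polynomial.aeval (0 : K) P) < 1 := by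
      rintro _ ⟨j | j, rfl⟩
      · obtain ⟨i, j, k⟩ := j
        refine ⟨0, ?_⟩
        rw [map_zero, sub_zero]
        exact val_zzz hx0 hall i j k
      · fin_cases j
        · refine ⟨1, ?_⟩
          simp [cub, hx0]
        · obtain ⟨c, hc⟩ := congr_root hV.const (eta_small hD.rel hx0 hs0 hs1)
          refine ⟨Polynomial.C c, ?_⟩
          rw [Polynomial.aeval_C]
          exact hc
    obtain ⟨P, hP⟩ := congr_poly hV.const V.zero_mem h4 u hu
    refine ⟨P, ?_⟩
    rw [not_isUnitOf_iff V hP.le]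
    exact hP
  refine ⟨fun h => absurd h hnl, fun _ => ?_⟩
  obtain ⟨π, hπ, hdiv⟩ := exists_unif_val hV
  have hπ0 : π ≠ 0 := ((isSmallOf_iff V π).mp hπ).1
  have hW := hV1 K 4 V hV ![t⁻¹, x⁻¹, a⁻¹, b⁻¹] ![t, x, a, b] (by
    intro i
    right
    fin_cases i
    · exact ⟨ht0, rfl⟩
    · exact ⟨hx0, rfl⟩
    · exact ⟨ha0, rfl⟩
    · exact ⟨hb0, rfl⟩) π hπ
  set c := t * x * a * b / (π * y ^ 2) with hc
  have hc0 : c ≠ 0 := div_ne_zero (mul_ne_zero (mul_ne_zero (mul_ne_zero ht0 hx0) ha0) hb0)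
    (mul_ne_zero hπ0 (pow_ne_zero 2 hy0))
  refine ⟨c, hc0, ?_, ?_⟩
  · have : c⁻¹ • omegaY t x y a b = (π * ∏ i, ![t⁻¹, x⁻¹, a⁻¹, b⁻¹] i) • wedge ![t, x, a, b] := by
      unfold omegaY
      rw [smul_smul]
      congr 1
      rw [hc]
      simp only [Fin.prod_univ_four]
      change _ = π * (t⁻¹ * x⁻¹ * a⁻¹ * b⁻¹)
      field_simp
    rw [this]
    exact hW
  · rw [isSmallOf_iff]
    refine ⟨mul_ne_zero (one_div_ne_zero hx0) (pow_ne_zero 3 hc0), ?_⟩
    have hη0 : y / x ≠ 0 := div_ne_zero hy0 hx0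
    have : 1 / x * c ^ 3 = ((1 / x) / π) * (((t ^ 3 / x) / π) * (((a ^ 3 / x) / π) * (b ^ 3 / x))) *
        ((y / x) ^ 6)⁻¹ := by
      rw [hc]
      field_simp
    rw [this, map_mul, map_inv₀, map_pow, hηu, one_pow, inv_one, mul_one, map_mul, map_mul, map_mul]
    have e1 := hdiv _ hs0
    have e2 := hdiv _ hs1
    have e3 := hdiv _ hs2
    calc _ ≤ 1 * (1 * (1 * V.valuation (b ^ 3 / x))) := by gcongr
      _ < 1 := by simpa using hs3

section
variable {t x y a b : K}

lemma R1_mem_vvv (i j k : Fin 2) : ![1, t] i * ![1, t] j * ![1, t] k / x ∈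
    algR1 t x y a b := Algebra.subset_adjoin (Or.inl ⟨Sum.inl (i, j, k), rfl⟩)

lemma R1_mem_y : y / x ∈ algR1 t x y a b := Algebra.subset_adjoin (Or.inl ⟨Sum.inr 1, rfl⟩)

lemma R1_mem_a : a⁻¹ ∈ algR1 t x y a b := Algebra.subset_adjoin (Or.inr (by simp))
lemma R1_mem_ta : t / a ∈ algR1 t x y a b := Algebra.subset_adjoin (Or.inr (by simp))
lemma R1_mem_ba : b / a ∈ algR1 t x y a b := Algebra.subset_adjoin (Or.inr (by simp))
lemma R1_mem_xa : x / a ^ 3 ∈ algR1 t x y a b := Algebra.subset_adjoin (Or.inr (by simp))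

/-- quotients over an algebra `B` in which `v i / p`, `x / p³`, `y / p³` lie -/
lemma fracV_R1 {V : ValuationSubring K} {B : Subalgebra ℂ K} {p : K}
    (hp : p ≠ 0) (hx : x ≠ 0) (h1 : 1 / p ∈ B) (ht : t / p ∈ B) (hxB : x / p ^ 3 ∈ B)
    (hxV : p ^ 3 / x ∈ V) (hyB : y / p ^ 3 ∈ B) (e1 : a⁻¹ ∈ B) (e2 : t / a ∈ B) (e3 : b / a ∈ B)
    (e4 : x / a ^ 3 ∈ B) : ∀ u ∈ algR1 t x y a b, FracV V B u := by
  have hinv : (x / p ^ 3)⁻¹ ∈ V := by rw [inv_div]; exact hxV
  have h0 : x / p ^ 3 ≠ 0 := div_ne_zero hx (pow_ne_zero 3 hp)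
  have hz : ∀ i : Fin 2, ![1, t] i / p ∈ B := by
    intro i
    fin_cases i
    · exact h1
    · exact ht
  apply fracV_adjoin
  rintro s (⟨j | j, rfl⟩ | hs)
  · obtain ⟨i, j, k⟩ := j
    refine ⟨(![1, t] i / p) * (![1, t] j / p) * (![1, t] k / p),
      mul_mem (mul_mem (hz i) (hz j)) (hz k), x / p ^ 3, hxB, h0, hinv, ?_⟩
    simp only [cub, Sum.elim_inl]
    field_simp
  · fin_cases j
    · refine ⟨1, one_mem _, 1, one_mem _, one_ne_zero, by rw [inv_one]; exact V.one_mem, ?_⟩
      simp [cub, hx]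
    · refine ⟨y / p ^ 3, hyB, x / p ^ 3, hxB, h0, hinv, ?_⟩
      simp only [cub, Sum.elim_inr]
      change y / x = _
      field_simp
  · rcases hs with rfl | rfl | rfl | rfl
    · exact FracV.of_mem e1
    · exact FracV.of_mem e2
    · exact FracV.of_mem e3
    · exact FracV.of_mem e4

/-- elements which are quotients over `algR1` with denominator `p³ / x` -/
lemma R1_frac {V : ValuationSubring K} (l : Fin 2) (hx : x ≠ 0) (hp : ![1, t] l ≠ 0)
    (hV : x / ![1, t] l ^ 3 ∈ V) :
    (∀ i, FracV V (algR1 t x y a b) (![1, t] i / ![1, t] l)) ∧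
      FracV V (algR1 t x y a b) (x / ![1, t] l ^ 3) ∧
      FracV V (algR1 t x y a b) (y / ![1, t] l ^ 3) := by
  set p := ![1, t] l with hpdef
  have hden : p * p * p / x ∈ algR1 t x y a b := R1_mem_vvv l l l
  have hden0 : p * p * p / x ≠ 0 := div_ne_zero (mul_ne_zero (mul_ne_zero hp hp) hp) hx
  have hinv : (p * p * p / x)⁻¹ ∈ V := by
    have : (p * p * p / x)⁻¹ = x / p ^ 3 := by rw [inv_div]; ring
    rw [this]; exact hV
  refine ⟨?_, ?_, ?_⟩
  · intro i
    refine ⟨![1, t] i * p * p / x, R1_mem_vvv i l l, p * p * p / x, hden, hden0, hinv, ?_⟩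
    field_simp
  · exact ⟨1, one_mem _, p * p * p / x, hden, hden0, hinv, by field_simp⟩
  · exact ⟨y / x, R1_mem_y, p * p * p / x, hden, hden0, hinv, by field_simp⟩

end

theorem G9_of (hN2 : Stmt_N2) (hSym : Stmt_Sym) (hG1 : Stmt_G1) (hG2 : Stmt_G2) (hG4 : Stmt_G4)
    (hV1 : Stmt_V1) (hV3 : Stmt_V3) (hV5 : Stmt_V5) (hV6 : Stmt_V6) : Stmt_G9 := by
  intro K _ _ t x y a b hD R χ hloc
  refine ⟨stmt_A9 K R _ χ hloc (hN2 K t x y a b hD).2.2.2.2, ?_⟩
  have hS := hSym K t x y a b hD
  have hind := hS.2.2.2.2.1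
  have ht0 : t ≠ 0 := by simpa using hind.ne_zero 0
  have hx0 : x ≠ 0 := by simpa using hind.ne_zero 1
  have ha0 : a ≠ 0 := by simpa using hind.ne_zero 2
  have hb0 : b ≠ 0 := by simpa using hind.ne_zero 3
  have hy0 : y ≠ 0 := by simpa using hS.2.2.2.2.2.ne_zero 1
  have hG1D := hG1 K t x y a b hD
  refine ⟨3, x ^ 2 / a ^ 9, omegaY t x y a b, by norm_num,
    div_ne_zero (pow_ne_zero 2 hx0) (pow_ne_zero 9 ha0), hG1D.1, ?_⟩
  intro V hV hRV
  obtain ⟨hAV, hiff⟩ := stmt_V4 K R _ χ V hloc hRV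
  rw [hiff]
  have hmem : ∀ {z : K}, z ∈ algR1 t x y a b → V.valuation z ≤ 1 := fun hz => by
    rw [V.valuation_le_one_iff]; exact hAV _ hz
  have hz3 : ∀ l : Fin 2, V.valuation (![1, t] l ^ 3 / x) ≤ 1 := by
    intro l
    have h1 : ![1, t] l ^ 3 / x ∈ algR1 t x y a b := by
      have : ![1, t] l ^ 3 / x = ![1, t] l * ![1, t] l * ![1, t] l / x := by ring
      rw [this]; exact R1_mem_vvv l l l
    exact hmem h1
  have hη : V.valuation (y / x) ≤ 1 := hmem R1_mem_y
  have va : V.valuation a⁻¹ ≤ 1 := hmem R1_mem_a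
  have vta : V.valuation (t / a) ≤ 1 := hmem R1_mem_ta
  have vba : V.valuation (b / a) ≤ 1 := hmem R1_mem_ba
  have vxa : V.valuation (x / a ^ 3) ≤ 1 := hmem R1_mem_xa
  by_cases h0 : V.valuation (1 / x) = 1
  · -- case (i)
    have hvx : V.valuation x = 1 := by
      have : x = (1 / x)⁻¹ := by simp
      rw [this, map_inv₀, h0, inv_one]
    have hxV : x ∈ V := by rw [← V.valuation_le_one_iff]; exact hvx.le
    obtain ⟨f1, f2, f3⟩ := R1_frac (t := t) (x := x) (y := y) (a := a) (b := b) (V := V) 0 hx0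
      one_ne_zero (by simpa using hxV)
    have hD' := hS.2.2.1
    set B := algT1 t x y a⁻¹ (b / a) with hB
    have hT : ∀ z ∈ B, z ∈ V := by
      apply alg_le_val hV.const
      rintro s (rfl | rfl | rfl | rfl | rfl)
      · apply val_le_of_pow (n := 3) (by norm_num)
        have : s ^ 3 = (s ^ 3 / x) * x := by field_simp
        rw [this, map_mul, hvx, mul_one]
        exact hz3 1
      · exact hvx.le
      · have : s = (s / x) * x := by field_simp
        rw [this, map_mul, hvx, mul_one]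
        exact hη
      · exact va
      · exact vba
    have mt : t ∈ B := Algebra.subset_adjoin (by simp)
    have mx : x ∈ B := Algebra.subset_adjoin (by simp)
    have my : y ∈ B := Algebra.subset_adjoin (by simp)
    have ma : a⁻¹ ∈ B := Algebra.subset_adjoin (by simp)
    have mb : b / a ∈ B := Algebra.subset_adjoin (by simp)
    have hA : ∀ u ∈ algR1 t x y a b, FracV V B u := by
      apply fracV_R1 (p := 1) one_ne_zero hx0
      · rw [div_one]; exact one_mem _
      · rw [div_one]; exact mt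
      · simpa using mx
      · rw [← V.valuation_le_one_iff]; simpa using h0.le
      · simpa using my
      · exact ma
      · rw [div_eq_mul_inv]; exact mul_mem mt ma
      · exact mb
      · have : x / a ^ 3 = x * a⁻¹ ^ 3 := by field_simp
        rw [this]; exact mul_mem mx (pow_mem ma 3)
    have hB' : ∀ u ∈ B, FracV V (algR1 t x y a b) u := by
      apply fracV_adjoin
      rintro s (rfl | rfl | rfl | rfl | rfl)
      · simpa using f1 1
      · simpa using f2
      · simpa using f3
      · exact FracV.of_mem R1_mem_a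
      · exact FracV.of_mem R1_mem_ba
    refine transfer hV3 hV5 hA hB' (hG2 K _ _ _ _ _ hD' V hV hT) (c := -a ^ 3)
      (h := x ^ 2 / a ^ 9) (neg_ne_zero.mpr (pow_ne_zero 3 ha0)) ?_ ?_
    · have : x ^ 2 / a ^ 9 * (-a ^ 3) ^ 3 = -(x ^ 2) := by
        field_simp
      rw [this, Valuation.map_neg, map_pow, hvx, one_pow]
    · rw [hG1D.2.2.2.1, smul_smul]
      have : -a ^ 3 * -(a ^ 3)⁻¹ = 1 := by field_simp
      rw [this, one_smul]
  by_cases h1 : V.valuation (t ^ 3 / x) = 1
  · -- case (ii)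
    have b2 : V.valuation (x / t ^ 3) = 1 := by
      rw [← inv_div, map_inv₀, h1, inv_one]
    have hxV : x / t ^ 3 ∈ V := by rw [← V.valuation_le_one_iff]; exact b2.le
    obtain ⟨f1, f2, f3⟩ := R1_frac (t := t) (x := x) (y := y) (a := a) (b := b) (V := V) 1 hx0
      ht0 hxV
    change ∀ i, FracV V (algR1 t x y a b) (![1, t] i / t) at f1
    change FracV V (algR1 t x y a b) (x / t ^ 3) at f2
    change FracV V (algR1 t x y a b) (y / t ^ 3) at f3
    have hD1 := hS.2.2.2.1
    have hD2 := (hSym K _ _ _ _ _ hD1).2.2.1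
    have ea : (a / t)⁻¹ = t / a := by rw [inv_div]
    have eb : b / t / (a / t) = b / a := by field_simp
    have hG1D2 := (hG1 K _ _ _ _ _ hD1).2.2.2.1
    rw [ea, eb] at hD2 hG1D2
    set B := algT1 t⁻¹ (x / t ^ 3) (y / t ^ 3) (t / a) (b / a) with hB
    have vt : V.valuation t⁻¹ ≤ 1 := by
      apply val_le_of_pow (n := 3) (by norm_num)
      have : t⁻¹ ^ 3 = (![1, t] 0 ^ 3 / x) * (x / t ^ 3) := by
        change t⁻¹ ^ 3 = ((1 : K) ^ 3 / x) * (x / t ^ 3)
        field_simp
      rw [this, map_mul, b2, mul_one]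
      exact hz3 0
    have hT : ∀ z ∈ B, z ∈ V := by
      apply alg_le_val hV.const
      rintro s (rfl | rfl | rfl | rfl | rfl)
      · exact vt
      · exact b2.le
      · have : y / t ^ 3 = (y / x) * (x / t ^ 3) := by field_simp
        rw [this, map_mul, b2, mul_one]
        exact hη
      · exact vta
      · exact vba
    have mt : t⁻¹ ∈ B := Algebra.subset_adjoin (by simp)
    have mx : x / t ^ 3 ∈ B := Algebra.subset_adjoin (by simp)
    have my : y / t ^ 3 ∈ B := Algebra.subset_adjoin (by simp)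
    have mta : t / a ∈ B := Algebra.subset_adjoin (by simp)
    have mb : b / a ∈ B := Algebra.subset_adjoin (by simp)
    have hA : ∀ u ∈ algR1 t x y a b, FracV V B u := by
      apply fracV_R1 (p := t) ht0 hx0
      · rw [one_div]; exact mt
      · rw [div_self ht0]; exact one_mem _
      · exact mx
      · rw [← V.valuation_le_one_iff]; exact h1.le
      · exact my
      · have : a⁻¹ = t⁻¹ * (t / a) := by field_simp
        rw [this]; exact mul_mem mt mta
      · exact mta
      · exact mb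
      · have : x / a ^ 3 = (x / t ^ 3) * (t / a) ^ 3 := by field_simp
        rw [this]; exact mul_mem mx (pow_mem mta 3)
    have hB' : ∀ u ∈ B, FracV V (algR1 t x y a b) u := by
      apply fracV_adjoin
      rintro s (rfl | rfl | rfl | rfl | rfl)
      · simpa using f1 0
      · exact f2
      · exact f3
      · exact FracV.of_mem R1_mem_ta
      · exact FracV.of_mem R1_mem_ba
    refine transfer hV3 hV5 hA hB' (hG2 K _ _ _ _ _ hD2 V hV hT) (c := a ^ 3 / t ^ 2)
      (h := x ^ 2 / a ^ 9) (div_ne_zero (pow_ne_zero 3 ha0) (pow_ne_zero 2 ht0)) ?_ ?_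
    · have : x ^ 2 / a ^ 9 * (a ^ 3 / t ^ 2) ^ 3 = (x / t ^ 3) ^ 2 := by
        field_simp
      rw [this, map_pow, b2, one_pow]
    · rw [hG1D2, hG1D.2.2.2.2.1, smul_smul, smul_smul]
      have : a ^ 3 / t ^ 2 * -((a / t) ^ 3)⁻¹ * -t⁻¹ = 1 := by field_simp
      rw [this, one_smul]
  have hs0 : V.valuation (1 / x) < 1 := by
    have h := hz3 0
    change V.valuation ((1 : K) ^ 3 / x) ≤ 1 at h
    rw [one_pow] at h
    exact lt_of_le_of_ne h h0
  have hs1 : V.valuation (t ^ 3 / x) < 1 := lt_of_le_of_ne (hz3 1) h1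
  have hηu := eta_unit hD.rel hx0 hs0 hs1
  by_cases h2 : V.valuation (x / a ^ 3) = 1
  · -- case (iii)
    have b2 : V.valuation (a ^ 3 / x) = 1 := by
      rw [← inv_div, map_inv₀, h2, inv_one]
    set B := algT3 t x y a b with hB
    have hT : ∀ z ∈ B, z ∈ V := by
      apply alg_le_val hV.const
      rintro s (rfl | rfl | rfl | rfl | rfl | rfl)
      · exact va
      · exact vta
      · exact vba
      · exact b2.le
      · exact h2.le
      · exact hη
    have m1 : x / a ^ 3 ∈ B := Algebra.subset_adjoin (by simp)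
    have m2 : y / x ∈ B := Algebra.subset_adjoin (by simp)
    have m3 : a⁻¹ ∈ B := Algebra.subset_adjoin (by simp)
    have m4 : t / a ∈ B := Algebra.subset_adjoin (by simp)
    have m5 : b / a ∈ B := Algebra.subset_adjoin (by simp)
    have hA : ∀ u ∈ algR1 t x y a b, FracV V B u := by
      apply fracV_R1 (p := a) ha0 hx0
      · rw [one_div]; exact m3
      · exact m4
      · exact m1
      · rw [← V.valuation_le_one_iff]; exact b2.le
      · have : y / a ^ 3 = (y / x) * (x / a ^ 3) := by field_simp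
        rw [this]
        exact mul_mem m2 m1
      · exact m3
      · exact m4
      · exact m5
      · exact m1
    have hB' : ∀ u ∈ B, FracV V (algR1 t x y a b) u := by
      apply fracV_adjoin
      rintro s (rfl | rfl | rfl | rfl | rfl | rfl)
      · exact FracV.of_mem R1_mem_a
      · exact FracV.of_mem R1_mem_ta
      · exact FracV.of_mem R1_mem_ba
      · refine ⟨1, one_mem _, x / a ^ 3, R1_mem_xa, div_ne_zero hx0 (pow_ne_zero 3 ha0), ?_, ?_⟩
        · rw [inv_div, ← V.valuation_le_one_iff]; exact b2.le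
        · field_simp
      · exact FracV.of_mem R1_mem_xa
      · exact FracV.of_mem R1_mem_y
    refine transfer hV3 hV5 hA hB' (hG4 K _ _ _ _ _ hD V hV hT ((isUnitOf_iff V _).mpr hηu))
      (c := a) (h := x ^ 2 / a ^ 9) ha0 ?_ ?_
    · have : x ^ 2 / a ^ 9 * a ^ 3 = (x / a ^ 3) ^ 2 := by field_simp
      rw [this, map_pow, h2, one_pow]
    · rw [smul_smul, mul_inv_cancel₀ ha0, one_smul]
  -- case (iv)
  have hs2 : V.valuation (x / a ^ 3) < 1 := lt_of_le_of_ne vxa h2
  have hsa : V.valuation a⁻¹ < 1 := by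
    apply val_lt_of_pow (n := 3)
    have : a⁻¹ ^ 3 = (1 / x) * (x / a ^ 3) := by field_simp
    rw [this, map_mul]
    exact mul_lt_one_of_nonneg_of_lt_one_left zero_le hs0 hs2.le
  have hsta : V.valuation (t / a) < 1 := by
    apply val_lt_of_pow (n := 3)
    have : (t / a) ^ 3 = (t ^ 3 / x) * (x / a ^ 3) := by field_simp
    rw [this, map_mul]
    exact mul_lt_one_of_nonneg_of_lt_one_left zero_le hs1 hs2.le
  have hall : ∀ i : Fin 2, V.valuation (![1, t] i ^ 3 / x) < 1 := by
    intro i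
    fin_cases i
    · change V.valuation ((1 : K) ^ 3 / x) < 1
      rw [one_pow]; exact hs0
    · exact hs1
  have hbaV : b / a ∈ V := by rw [← V.valuation_le_one_iff]; exact vba
  have hnl : ¬ IsLocOf V (algR1 t x y a b) := by
    apply hV6 K 4 V hV (by norm_num) (algR1 t x y a b) (b / a) hbaV hAV
    intro u hu
    have h4 : ∀ s ∈ (Set.range fun j => cub ![1, t] x y j / x) ∪ {a⁻¹, t / a, b / a, x / a ^ 3},
        ∃ P : Polynomial ℂ, V.valuation (s - Polynomial.aeval (b / a) P) < 1 := by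
      rintro s (⟨j | j, rfl⟩ | hs)
      · obtain ⟨i, j, k⟩ := j
        refine ⟨0, ?_⟩
        rw [map_zero, sub_zero]
        change V.valuation (![1, t] i * ![1, t] j * ![1, t] k / x) < 1
        apply val_lt_of_pow (n := 3)
        have : (![1, t] i * ![1, t] j * ![1, t] k / x) ^ 3 =
            (![1, t] i ^ 3 / x) * ((![1, t] j ^ 3 / x) * (![1, t] k ^ 3 / x)) := by
          field_simp
        rw [this, map_mul, map_mul]
        exact mul_lt_one_of_nonneg_of_lt_one_left zero_le (hall i)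
          (mul_lt_one_of_nonneg_of_lt_one_left zero_le (hall j) (hall k).le).le
      · fin_cases j
        · refine ⟨1, ?_⟩
          simp [cub, hx0]
        · obtain ⟨c, hc⟩ := congr_root hV.const (eta_small hD.rel hx0 hs0 hs1)
          refine ⟨Polynomial.C c, ?_⟩
          rw [Polynomial.aeval_C]
          exact hc
      · rcases hs with rfl | rfl | rfl | rfl
        · exact ⟨0, by rw [map_zero, sub_zero]; exact hsa⟩
        · exact ⟨0, by rw [map_zero, sub_zero]; exact hsta⟩
        · exact ⟨Polynomial.X, by rw [Polynomial.aeval_X, sub_self, map_zero]; exact zero_lt_one⟩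
        · exact ⟨0, by rw [map_zero, sub_zero]; exact hs2⟩
    obtain ⟨P, hP⟩ := congr_poly hV.const hbaV h4 u hu
    refine ⟨P, ?_⟩
    rw [not_isUnitOf_iff V hP.le]
    exact hP
  refine ⟨fun h => absurd h hnl, fun _ => ?_⟩
  obtain ⟨π, hπ, hdiv⟩ := exists_unif_val hV
  have hπ0 : π ≠ 0 := ((isSmallOf_iff V π).mp hπ).1
  have hW := hV1 K 4 V hV ![t⁻¹, x⁻¹, a, 1] ![t, x, a⁻¹, b / a] (by
    intro i
    fin_cases i
    · exact Or.inr ⟨ht0, rfl⟩
    · exact Or.inr ⟨hx0, rfl⟩
    · exact Or.inr ⟨inv_ne_zero ha0, (inv_inv a).symm⟩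
    · exact Or.inl ⟨hbaV, rfl⟩) π hπ
  set c := - (t * x * a ^ 2 / (π * y ^ 2)) with hc
  have hc0 : c ≠ 0 := neg_ne_zero.mpr (div_ne_zero (mul_ne_zero (mul_ne_zero ht0 hx0)
    (pow_ne_zero 2 ha0)) (mul_ne_zero hπ0 (pow_ne_zero 2 hy0)))
  refine ⟨c, hc0, ?_, ?_⟩
  · have hw : wedge ![t, x, a⁻¹, b / a] = (y ^ 2) • omegaY t x y a⁻¹ (b / a) := by
      unfold omegaY
      rw [smul_smul, mul_inv_cancel₀ (pow_ne_zero 2 hy0), one_smul]
    have : c⁻¹ • omegaY t x y a b =
        (π * ∏ i, ![t⁻¹, x⁻¹, a, 1] i) • wedge ![t, x, a⁻¹, b / a] := by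
      rw [hw, hG1D.2.2.2.1, smul_smul, smul_smul]
      congr 1
      rw [hc]
      simp only [Fin.prod_univ_four]
      change _ = π * (t⁻¹ * x⁻¹ * a * 1) * y ^ 2 * -(a ^ 3)⁻¹
      field_simp
    rw [this]
    exact hW
  · rw [isSmallOf_iff]
    refine ⟨mul_ne_zero (div_ne_zero (pow_ne_zero 2 hx0) (pow_ne_zero 9 ha0))
      (pow_ne_zero 3 hc0), ?_⟩
    have : x ^ 2 / a ^ 9 * c ^ 3 = - (((a⁻¹ / π) ^ 3 * (t ^ 3 / x)) * ((y / x) ^ 6)⁻¹) := by
      rw [hc]
      field_simp
    rw [this, Valuation.map_neg, map_mul, map_inv₀, map_pow _ _ 6, hηu, one_pow, inv_one, mul_one,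
      map_mul, map_pow]
    have e1 := hdiv _ hsa
    calc _ ≤ 1 ^ 3 * V.valuation (t ^ 3 / x) := by gcongr
      _ < 1 := by simpa using hs1

end

end Pool.Agent.MPad0563
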